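import Mathlib
import Pool.Agent.FracEM.PM.Defs

/-!
# Factors of oriented even cycles in digraphs: definitions and statements of the steps

`PW R d f` : the cyclic sequence `f : Fin k → α` follows the pattern `d` (an orientation of the
`k`-cycle) in the relation `R`.
-/

set_option autoImplicit false

namespace Pool.Agent.W163.CF

open Finset

/-- closed walk following the pattern `d` -/
def PW {α : Type} {k : ℕ} (R : α → α → Prop) (d : Fin k → Bool) (f : Fin k → α) : Prop :=
  ∀ i j : Fin k, j.val = (i.val + 1) % k →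
    (d i = true → R (f i) (f j)) ∧ (d i = false → R (f j) (f i))

/-- the fractional claim for the pattern `d`: in a finite digraph (loops allowed) in which every
in- and out-degree is at least half the number of vertices, every nonnegative weight has a closed
`d`-walk of weight at most `k` times the average weight -/
def FC (k : ℕ) (d : Fin k → Bool) : Prop :=
  ∀ (α : Type) [Fintype α] [Nonempty α] (R : α → α → Prop),
    (∀ a, Fintype.card α ≤ 2 * {b | R a b}.ncard) →
    (∀ a, Fintype.card α ≤ 2 * {b | R b a}.ncard) →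
    ∀ y : α → ℝ, (∀ a, 0 ≤ y a) →
    ∃ f : Fin k → α, PW R d f ∧ (Fintype.card α : ℝ) * ∑ i, y (f i) ≤ k * ∑ a, y a

/-- digraph with large semidegree -/
structure Big {V : Type} [Fintype V] (R : V → V → Prop) (η : ℝ) : Prop where
  irr : ∀ v, ¬ R v v
  out : ∀ v, (1 / 2 + η) * (Fintype.card V : ℝ) ≤ ({w | R v w}.ncard : ℝ)
  inn : ∀ v, (1 / 2 + η) * (Fintype.card V : ℝ) ≤ ({w | R w v}.ncard : ℝ)

/-! ## S1: LP duality -/

/-- S1. Finite LP duality for a nonnegative matrix (both optima attained).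
Proof: if `J` is empty take `0, 0`. Otherwise apply `Sion.exists_isSaddlePointOn` (as in
`Pool/Agent/LR/MM.lean`) to the matrix game `a` to get probability vectors `l, μ` and a value `c`
with `c ≤ ∑ i, l i * a i j` for all `j` and `∑ j, μ j * a i j ≤ c` for all `i`; `c > 0` because the
uniform `l` gives a positive payoff against every `j`; divide by `c`. -/
def S1 : Prop := ∀ (I J : Type) [Fintype I] [Fintype J] (a : I → J → ℝ),
  (∀ i j, 0 ≤ a i j) → (∀ j, ∃ i, 0 < a i j) →
  ∃ (y : I → ℝ) (w : J → ℝ), (∀ i, 0 ≤ y i) ∧ (∀ j, 0 ≤ w j) ∧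
    (∀ j, 1 ≤ ∑ i, y i * a i j) ∧ (∀ i, ∑ j, w j * a i j ≤ 1) ∧ ∑ i, y i = ∑ j, w j

/-! ## S4: sampling keeps the degrees -/

/-- S4. A random `m`-tuple of vertices spans (as an index digraph on `Fin m`) minimum outdegree at
least `m/2`, with probability `≥ 1 - δ`.
Proof: put `s = min η (1/2)`, `t = 1 - s`, `p = 1/2 + η`. For fixed `i`, the indicator of
`2 * #{j | R (x i) (x j)} < m` is at most `t ^ #{j ≠ i | R (x i) (x j)} / (√t)^m`, and
`∑_x t ^ #{j ≠ i | R (x i) (x j)} = ∑_u ∏_{j ≠ i} (∑_v if R u v then t else 1)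
 ≤ n * (n * (1 - p s))^(m-1)` (use `Finset.prod_univ_sum` with the `i`-th factor `if v = u then 1 else 0`).
Now `q := (1 - p s) / √t < 1` since `(1 - p s)^2 < 1 - s`, so the sum over `i` is at most
`m * n^m * q^m / (1 - p s)`, and `m q^m → 0`. (`p ≤ 1` may be assumed, as `V` is nonempty.) -/
def S4 : Prop := ∀ η δ : ℝ, 0 < η → 0 < δ → ∃ m0 : ℕ, ∀ m : ℕ, m0 ≤ m →
  ∀ (V : Type) [Fintype V] [Nonempty V] (R : V → V → Prop),
    (∀ v, (1 / 2 + η) * (Fintype.card V : ℝ) ≤ ({w | R v w}.ncard : ℝ)) →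
    ({x : Fin m → V | ∃ i, 2 * {j | R (x i) (x j)}.ncard < m}.ncard : ℝ) ≤
      δ * (Fintype.card V : ℝ) ^ m

/-! ## S5: counting blow-ups (Jensen) -/

/-- S5. Blow-up counting. If a `ρ` fraction of all `x : Fin m → V` satisfies `P`, then at least a
`ρ ^ (s ^ m)` fraction of all `X : Fin m → Fin s → V` has the property that every transversal
`fun i => X i (φ i)` satisfies `P`.
Proof: induction on `m`. For `m+1` write `x = Fin.cons v x'`; for `vv : Fin s → V` let
`P' vv x' := ∀ a, P (Fin.cons (vv a) x')`. Then the count for `P` is the sum over `vv` of the count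
for `P' vv`, which is `≥ ∑_vv n^(m s) (dens (P' vv))^(s^m) ≥ n^(m s) n^s (avg_vv dens (P' vv))^(s^m)`
(`Real.pow_arith_mean_le_arith_mean_pow`), and
`avg_vv dens (P' vv) = avg_x' (g x')^s ≥ (avg g)^s`, where `g x'` is the fraction of `v` with
`P (Fin.cons v x')`. -/
def S5 : Prop := ∀ (V : Type) [Fintype V] [Nonempty V] (m s : ℕ) (P : (Fin m → V) → Prop) (ρ : ℝ),
  0 ≤ ρ → ρ * (Fintype.card V : ℝ) ^ m ≤ ({x | P x}.ncard : ℝ) →
    ρ ^ (s ^ m) * (Fintype.card V : ℝ) ^ (m * s) ≤
      ({X : Fin m → Fin s → V | ∀ φ : Fin m → Fin s, P (fun i => X i (φ i))}.ncard : ℝ)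

/-! ## S6: from light index walks to light walks in general position -/

/-- S6. Let `I : Fin k → Fin m` be an index sequence such that a `ρ` fraction of all `x : Fin m → V`
has `x ∘ I` a closed `d`-walk of `R` of `y`-weight at most `L`. Then at least
`ρ^(k^m)/k * n^k` of the `f : Fin k → V` are closed `d`-walks of weight at most `L`.
Proof: if `ρ = 0` trivial. Otherwise such an `x` exists, so `I i ≠ I j` for cyclically consecutive
`i, j` (`R` is irreflexive). Apply `S5` with `s = k` and `P x := PW R d (x ∘ I) ∧ ∑ y (x (I i)) ≤ L`.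
For `X` as in `S5` and `a : Fin k` put `f_a j = X (I j) (j + a)`. Every `f_a` is a closed `d`-walk
(for consecutive `j, j'` use a transversal `φ` with `φ (I j) = j + a`, `φ (I j') = j' + a`), and
`∑_a ∑_j y (f_a j) = ∑_b ∑_j y (X (I j) b) ≤ k L` (constant transversals), so some `f_a` has weight
`≤ L`. So some `a` works for a `1/k` fraction of the `X`, and `X ↦ f_a` reads `k` different
coordinates `(I j, j + a)` of `X`, so each `f` has exactly `n^(m k - k)` preimages. -/
def S6 : Prop := ∀ (V : Type) [Fintype V] [Nonempty V] (R : V → V → Prop), (∀ v, ¬ R v v) →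
  ∀ (k m : ℕ), 2 ≤ k → ∀ (d : Fin k → Bool) (y : V → ℝ) (L ρ : ℝ), 0 ≤ ρ →
  ∀ I : Fin k → Fin m,
    ρ * (Fintype.card V : ℝ) ^ m ≤
      ({x : Fin m → V | PW R d (fun j => x (I j)) ∧ ∑ j, y (x (I j)) ≤ L}.ncard : ℝ) →
    ρ ^ (k ^ m) / k * (Fintype.card V : ℝ) ^ k ≤
      ({f : Fin k → V | PW R d f ∧ ∑ j, y (f j) ≤ L}.ncard : ℝ)

/-! ## S7: the robust fractional claim -/

/-- S7. Robust form of the fractional claim.
Proof (from `S4`, `S6`): take `m` large (`m ≥ 1`, `m ≥ m0 η (ε/8)` of `S4`). By Markov at most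
`(1 - ε/2) n^m` of the `x : Fin m → V` have `k * ∑ i, y (x i) > (1 - ε/2) m`
(`∑_x ∑_i y (x i) = m n^(m-1) ∑ y ≤ m n^m (1-ε)/k` and `(1-ε)/(1-ε/2) ≤ 1-ε/2`). By `S4` for `R` and
its converse at most `2 (ε/8) n^m` have a bad index. So at least `(ε/4) n^m` tuples `x` are good; `FC`
on `Fin m` with the relation `fun i j => R (x i) (x j)` and weight `y ∘ x` gives
`I : Fin k → Fin m` with `PW R d (x ∘ I)` and `m ∑ y (x (I i)) ≤ k ∑ y (x i) ≤ (1 - ε/2) m`. Pigeonhole
over the `m^k` sequences `I`, and `S6` with `ρ = ε/(4 m^k)`, `L = 1 - ε/2`. -/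
def S7 : Prop := ∀ (k : ℕ) (d : Fin k → Bool), 2 ≤ k → FC k d → ∀ η ε : ℝ, 0 < η → 0 < ε → ε ≤ 1 →
  ∃ c : ℝ, 0 < c ∧ ∀ (V : Type) [Fintype V] [Nonempty V] (R : V → V → Prop), Big R η →
    ∀ y : V → ℝ, (∀ v, 0 ≤ y v) → k * ∑ v, y v ≤ (1 - ε) * (Fintype.card V : ℝ) →
    c * (Fintype.card V : ℝ) ^ k ≤
      ({f : Fin k → V | PW R d f ∧ ∑ j, y (f j) ≤ 1 - ε / 2}.ncard : ℝ)

/-! ## S8: almost perfect tilings -/

/-- `e` is the vertex set of a copy of the oriented cycle `d` -/
def Cyc {V : Type} [DecidableEq V] {k : ℕ} (R : V → V → Prop) (d : Fin k → Bool) (e : Finset V) : Prop :=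
  ∃ f : Fin k → V, Function.Injective f ∧ PW R d f ∧ univ.image f = e

/-- S8. Almost perfect tiling.
Proof (from `S1`, `S7`, `H115R4.nibble_T`): let `ε = θ/2` (wlog `θ ≤ 1`), `c` from `S7`. Non-injective
`f : Fin k → V` number at most `k^2 n^(k-1)`, so for `n ≥ n0` there are `≥ (c/2) n^k` injective ones in
the conclusion of `S7`. Put `K = 4/(c ε k)`, `cap = K / n^(k-1)`. Apply `S1` with
`J = {f // Injective f ∧ PW R d f}`, `I = V ⊕ J`, `a (inl v) f = if v ∈ range f then 1 else 0`,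
`a (inr g) f = if g = f then 1/cap else 0`. The packing `w` has loads `≤ 1`, `w f ≤ cap`, and
`∑ w = ∑_v y v + ∑_f z f` with `∑_i y (f i) + z f / cap ≥ 1`. If `k ∑ y ≤ (1-ε) n` then
`∑_f z f ≥ (c/2) n^k * cap * ε/2 ≥ n/k`; so `∑ w ≥ (1-ε) n / k` always. Codegrees are at most
`cap * k^2 n^(k-2) ≤ κ`. The nibble theorem gives a matching with `≥ (1-θ/2)(1-ε) n/k` members. -/
def S8 : Prop := ∀ (k : ℕ) (d : Fin k → Bool), 2 ≤ k → FC k d → ∀ η θ : ℝ, 0 < η → 0 < θ →
  ∃ n0 : ℕ, ∀ (V : Type) [Fintype V] [DecidableEq V] (R : V → V → Prop), Big R η →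
    n0 ≤ Fintype.card V →
    ∃ M : Finset (Finset V), (∀ e ∈ M, Cyc R d e) ∧
      (∀ e ∈ M, ∀ e' ∈ M, e ≠ e' → Disjoint e e') ∧
      (1 - θ) * (Fintype.card V : ℝ) ≤ ((M.biUnion id).card : ℝ)

/-! ## S9: local counts -/

open Classical in
/-- the `k`-uniform hypergraph of the copies of `d` -/
noncomputable def HC {n k : ℕ} (R : Fin n → Fin n → Prop) (d : Fin k → Bool) : Finset (Finset (Fin n)) :=
  univ.filter (fun e => Cyc R d e)

open Classical in
/-- S9. Many copies, and every two vertices have many common `(k-1)`-sets in their links.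
Proof: any two vertices `a, b` and directions have at least `2ηn` common neighbours. Choose the
vertex at position `0`, then position `1` is `a` (and `b`), then positions `2, …, k-1`, the
last one in the intersection of two neighbourhoods: at least `(2ηn)^3 (n/2)^(k-4) ≥ (η n)^(k-1)` tuples
`(x_0, x_2, …, x_{k-1})` such that both `(x_0, a, x_2, …)` and `(x_0, b, x_2, …)` are closed `d`-walks;
at most `k^2 n^(k-2)` tuples have a repeated entry or contain `a` or `b`; each `(k-1)`-set comes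
from at most `(k-1)!` tuples. -/
def S9 : Prop := ∀ (k : ℕ) (d : Fin k → Bool), 4 ≤ k → ∀ η : ℝ, 0 < η → ∃ c : ℝ, 0 < c ∧
  ∃ n0 : ℕ, ∀ n : ℕ, n0 ≤ n → ∀ R : Fin n → Fin n → Prop, Big R η →
    (c * (n : ℝ) ^ k ≤
      (((univ : Finset (Fin k → Fin n)).filter (fun u => univ.image u ∈ HC R d)).card : ℝ)) ∧
    (∀ a b : Fin n, c * ((n.choose (k - 1) : ℕ) : ℝ) ≤
        ((((univ : Finset (Fin n)).powersetCard (k - 1)).filter
          (fun S => insert a S ∈ HC R d ∧ insert b S ∈ HC R d)).card : ℝ))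

/-! ## S10: linear absorption -/

open Classical in
open Pool.Agent.FracEM.PMT in
/-- S10. Linear absorption in `k`-uniform hypergraphs in which every two vertices have many common
link sets.
Proof: from `good_gadgets_lower`, `bad_count`, `good_gadgets_cardOm` (`Pool/Agent/FracEM/PM/Cnt.lean`,
same computation as `good_gadgets` there) there are `γ > 0`, `β > 0`, `n1` such that for `n ≥ n1`, every
`F` with `|F| ≤ β n` and every `x : Fin k → Fin n` at least `γ |Om k n|` gadgets `w ∈ Om k n` satisfy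
`GV H w.1 w.2`, `Disjoint (gv w.1 w.2) F`, `∀ i, insert (x i) (w.2 i) ∈ H`.
Choose `t = ⌊a' n⌋` pairwise disjoint valid gadgets one after another (or skip a turn), such that the potential
`Φ = ∑_x exp (-N(x))`, `N(x)` = number of chosen gadgets absorbing `x`, drops by a factor
`≤ 1 - γ(1 - e⁻¹)` each time (average over `Om k n`; gadgets that are invalid or meet the previous
ones count as a skip). At the end `exp(-N(x)) ≤ Φ ≤ n^k exp(-γ t/2)`, so `N(x) ≥ γ t/2 - k log n ≥ γ t/4`
for every `x`. `Z` is the union of the chosen gadgets, `b n ≤ γ t / 4`; absorb `U` by splitting it into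
`k`-sets (`exists_blocks`) and assigning greedily to each block its own gadget (`gv_abs`); unused
gadgets are tiled by `gv_pm`; glue with `PMon_union`. -/
def S10 : Prop := ∀ (k : ℕ), 2 ≤ k → ∀ c a : ℝ, 0 < c → 0 < a → ∃ b : ℝ, 0 < b ∧ ∃ n0 : ℕ,
  ∀ n : ℕ, n0 ≤ n → ∀ H : Finset (Finset (Fin n)), (∀ e ∈ H, e.card = k) →
    (c * (n : ℝ) ^ k ≤
      (((univ : Finset (Fin k → Fin n)).filter (fun u => univ.image u ∈ H)).card : ℝ)) →
    (∀ x x' : Fin n, c * ((n.choose (k - 1) : ℕ) : ℝ) ≤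
        ((((univ : Finset (Fin n)).powersetCard (k - 1)).filter
          (fun S => insert x S ∈ H ∧ insert x' S ∈ H)).card : ℝ)) →
    ∃ Z : Finset (Fin n), (Z.card : ℝ) ≤ a * n ∧
      ∀ U : Finset (Fin n), Disjoint U Z → (U.card : ℝ) ≤ b * n → k ∣ U.card → PMon H (Z ∪ U)

/-! ## S11: the factor theorem -/

/-- S11. The factor theorem for a pattern with the fractional claim.
Proof (from `S8`, `S9`, `S10`): `a = min (η/4) (1/2)`; `Z` from `S10` for `H = HC R d`; `W = univ \ Z`;
the induced digraph on `W` is `Big` with `η/2`; `S8` with `θ = b` leaves `U ⊆ W`, `|U| ≤ b n`;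
`k ∣ |Z|` (`U = ∅` and `PMon_card`), `k ∣ n`, so `k ∣ |U|`; glue with `PMon_union`; finally turn
`PMon (HC R d) univ` into an equivalence. -/
def S11 : Prop := ∀ (k : ℕ) (d : Fin k → Bool), 4 ≤ k → FC k d → ∀ η : ℝ, 0 < η →
  ∃ n0 : ℕ, ∀ n : ℕ, n0 ≤ n → k ∣ n → ∀ R : Fin n → Fin n → Prop, Big R η →
    ∃ e : Fin (n / k) × Fin k ≃ Fin n, ∀ j : Fin (n / k), PW R d (fun i => e (j, i))

end Pool.Agent.W163.CF
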