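import Mathlib
import Pool.Agent.FracEM.PM.Abs1
import Pool.Agent.FracEM.PM.Cnt
import Pool.Agent.W163.CF.Defs

/-!
# Linear absorption
-/

set_option autoImplicit false

namespace Pool.Agent.W163.CF

open Finset
open Pool.Agent.FracEM.PMT

open Classical in
theorem good_gadgets' (k : ℕ) (hk : 2 ≤ k) (c : ℝ) (hc : 0 < c) :
    ∃ γ : ℝ, 0 < γ ∧ γ ≤ 1 ∧ ∃ β : ℝ, 0 < β ∧ ∃ n0 : ℕ, ∀ n : ℕ, n0 ≤ n →
      ∀ H : Finset (Finset (Fin n)), (∀ e ∈ H, e.card = k) →
      (c * (n : ℝ) ^ k ≤
        (((univ : Finset (Fin k → Fin n)).filter (fun u => univ.image u ∈ H)).card : ℝ)) →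
      (∀ x x' : Fin n, c * ((n.choose (k - 1) : ℕ) : ℝ) ≤
        ((((univ : Finset (Fin n)).powersetCard (k - 1)).filter
          (fun S => insert x S ∈ H ∧ insert x' S ∈ H)).card : ℝ)) →
      ∀ F : Finset (Fin n), (F.card : ℝ) ≤ β * n → ∀ x : Fin k → Fin n,
      γ * ((Om k n).card : ℝ) ≤
        (((Om k n).filter (fun w => GV H w.1 w.2 ∧ Disjoint (gv w.1 w.2) F ∧
          ∀ i, insert (x i) (w.2 i) ∈ H)).card : ℝ) := by
  have hkpos : (0:ℝ) < (k:ℝ) := by exact_mod_cast (by omega : 0 < k)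
  have hδ : 0 < c * c ^ k := by positivity
  obtain ⟨n3, hn3⟩ := exists_nat_ge (8 * (k:ℝ)^4 / (c * c ^ k))
  refine ⟨min 1 (c * c ^ k / 4), lt_min one_pos (by positivity), min_le_left _ _,
    c * c ^ k / (4 * (k:ℝ)^2), by positivity, n3 + k + 1, ?_⟩
  intro n hn H hH hh1 hh2 F hF x
  have hnpos : (0:ℝ) < (n:ℝ) := by exact_mod_cast (by omega : 0 < n)
  have hlow := good_gadgets_lower k n c c hc hc H x (by convert hh1) (by
    intro a b
    have := hh2 a b
    convert this)
  have hbad := bad_count k hk n (by omega) (by omega) F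
  rw [← good_gadgets_cardOm] at hbad
  set A := (Om k n).filter (fun w => univ.image w.1 ∈ H ∧
        ∀ i, insert (w.1 i) (w.2 i) ∈ H ∧ insert (x i) (w.2 i) ∈ H) with hA
  set Bd := (Om k n).filter (fun w => (∃ i, w.1 i ∈ F) ∨ (∃ i, ¬ Disjoint (w.2 i) F) ∨
        (∃ i j, w.1 i ∈ w.2 j) ∨ (∃ i j, i ≠ j ∧ ¬ Disjoint (w.2 i) (w.2 j))) with hBd
  set Gd := (Om k n).filter (fun w => GV H w.1 w.2 ∧ Disjoint (gv w.1 w.2) F ∧
          ∀ i, insert (x i) (w.2 i) ∈ H) with hGd
  have hsub : A ⊆ Bd ∪ Gd := by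
    intro w hw
    rw [hA, Finset.mem_filter] at hw
    obtain ⟨hwO, hwH, hwi⟩ := hw
    rw [Finset.mem_union]
    by_cases hb : w ∈ Bd
    · exact Or.inl hb
    · right
      rw [hBd, Finset.mem_filter] at hb
      have hb' : ¬ ((∃ i, w.1 i ∈ F) ∨ (∃ i, ¬ Disjoint (w.2 i) F) ∨
        (∃ i j, w.1 i ∈ w.2 j) ∨ (∃ i j, i ≠ j ∧ ¬ Disjoint (w.2 i) (w.2 j))) :=
        fun h => hb ⟨hwO, h⟩
      push Not at hb'
      obtain ⟨b1, b2, b3, b4⟩ := hb'
      rw [hGd, Finset.mem_filter]
      refine ⟨hwO, ?_, ?_, fun i => (hwi i).2⟩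
      · refine ⟨?_, ?_, ?_, b3, b4⟩
        · have hc := hH _ hwH
          have hc' : (univ.image w.1).card = (univ : Finset (Fin k)).card := by
            rw [hc, Finset.card_univ, Fintype.card_fin]
          have := Finset.card_image_iff.mp hc'
          intro a b hab
          exact this (Finset.mem_coe.mpr (Finset.mem_univ a)) (Finset.mem_coe.mpr (Finset.mem_univ b)) hab
        · convert hwH
        · intro i
          convert (hwi i).1
      · unfold gv
        rw [Finset.disjoint_union_left]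
        constructor
        · rw [Finset.disjoint_left]
          intro a ha
          rw [Finset.mem_image] at ha
          obtain ⟨i, _, rfl⟩ := ha
          exact b1 i
        · rw [Finset.disjoint_biUnion_left]
          intro i _
          exact b2 i
  have hcard : (A.card : ℝ) ≤ (Bd.card : ℝ) + (Gd.card : ℝ) := by
    have h := (Finset.card_le_card hsub).trans (Finset.card_union_le _ _)
    exact_mod_cast h
  have hD : (0:ℝ) ≤ ((Om k n).card : ℝ) := by positivity
  have e1 : (k : ℝ) ^ 2 * F.card / n ≤ c * c ^ k / 4 := by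
    rw [div_le_iff₀ hnpos]
    have h := mul_le_mul_of_nonneg_left hF (by positivity : (0:ℝ) ≤ (k:ℝ)^2)
    calc (k : ℝ) ^ 2 * F.card ≤ (k:ℝ)^2 * (c * c ^ k / (4 * (k:ℝ)^2) * n) := h
      _ = c * c ^ k / 4 * n := by field_simp
  have e2 : 2 * (k : ℝ) ^ 4 / n ≤ c * c ^ k / 4 := by
    have hnn : (n3:ℝ) ≤ (n:ℝ) := by exact_mod_cast (by omega : n3 ≤ n)
    have h := hn3.trans hnn
    rw [div_le_iff₀ hδ] at h
    rw [div_le_iff₀ hnpos]
    linarith
  have e3 : ((k : ℝ) ^ 2 * F.card / n + 2 * (k : ℝ) ^ 4 / n) * ((Om k n).card : ℝ)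
      ≤ (c * c ^ k / 2) * ((Om k n).card : ℝ) :=
    mul_le_mul_of_nonneg_right (by linarith) hD
  have e4 : min 1 (c * c ^ k / 4) * ((Om k n).card : ℝ) ≤ (c * c ^ k / 4) * ((Om k n).card : ℝ) :=
    mul_le_mul_of_nonneg_right (min_le_right _ _) hD
  have e5 : 0 ≤ (c * c ^ k / 4) * ((Om k n).card : ℝ) := by positivity
  have hlow' : c * c ^ k * ((Om k n).card : ℝ) ≤ (A.card : ℝ) := by
    refine hlow.trans (le_of_eq ?_)
    rw [hA]
  have hbad' : (Bd.card : ℝ) ≤ ((k : ℝ) ^ 2 * F.card / n + 2 * (k : ℝ) ^ 4 / n) * ((Om k n).card : ℝ) := by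
    refine le_trans (le_of_eq ?_) hbad
    rw [hBd]
  linarith

/-- one step of the potential method -/
theorem pot_step {Ω X : Type} [DecidableEq Ω] (O : Finset Ω) (hO : O.Nonempty) (Y : Finset X)
    (good : X → Ω → Prop) [∀ x w, Decidable (good x w)] (φ : X → ℝ) (hφ : ∀ x, 0 ≤ φ x) (γ δ : ℝ) (hδ : 0 ≤ δ)
    (h : ∀ x ∈ Y, γ * (O.card : ℝ) ≤ ((O.filter (fun w => good x w)).card : ℝ)) :
    ∃ w ∈ O, ∑ x ∈ Y, φ x * (if good x w then 1 - δ else 1) ≤ (1 - γ * δ) * ∑ x ∈ Y, φ x := by
  by_contra hcon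
  push Not at hcon
  have h1 : ∑ w ∈ O, (1 - γ * δ) * ∑ x ∈ Y, φ x <
      ∑ w ∈ O, ∑ x ∈ Y, φ x * (if good x w then 1 - δ else 1) :=
    Finset.sum_lt_sum_of_nonempty hO hcon
  rw [Finset.sum_comm] at h1
  have h2 : ∀ x ∈ Y, ∑ w ∈ O, φ x * (if good x w then 1 - δ else 1) ≤ φ x * ((1 - γ * δ) * O.card) := by
    intro x hx
    rw [← Finset.mul_sum]
    apply mul_le_mul_of_nonneg_left _ (hφ x)
    have h3 : ∑ w ∈ O, (if good x w then 1 - δ else 1) =
        (O.card : ℝ) - δ * ((O.filter (fun w => good x w)).card : ℝ) := by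
      have h4 : ∀ w ∈ O, (if good x w then 1 - δ else 1) = 1 - δ * (if good x w then (1 : ℝ) else 0) := by
        intro w _
        split_ifs <;> ring
      rw [Finset.sum_congr rfl h4, Finset.sum_sub_distrib, ← Finset.mul_sum, Finset.sum_boole]
      simp
    rw [h3]
    have := mul_le_mul_of_nonneg_left (h x hx) hδ
    nlinarith
  have h5 := Finset.sum_le_sum h2
  rw [Finset.sum_const, nsmul_eq_mul, ← Finset.sum_mul] at *
  nlinarith

/-- the gadget `w` absorbs the tuple `x` -/
def AbsG {k n : ℕ} (H : Finset (Finset (Fin n))) (x : Fin k → Fin n)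
    (w : (Fin k → Fin n) × (Fin k → Finset (Fin n))) : Prop := ∀ i, insert (x i) (w.2 i) ∈ H

open Classical in
/-- number of gadgets of `G` absorbing `x` -/
noncomputable def NG {k n : ℕ} (H : Finset (Finset (Fin n)))
    (G : Finset ((Fin k → Fin n) × (Fin k → Finset (Fin n)))) (x : Fin k → Fin n) : ℕ :=
  (G.filter (fun w => AbsG H x w)).card

/-- family of disjoint valid gadgets -/
def FamG {k n : ℕ} (H : Finset (Finset (Fin n)))
    (G : Finset ((Fin k → Fin n) × (Fin k → Finset (Fin n)))) : Prop :=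
  (∀ w ∈ G, GV H w.1 w.2) ∧ ∀ w ∈ G, ∀ w' ∈ G, w ≠ w' → Disjoint (gv w.1 w.2) (gv w'.1 w'.2)

/-- vertex set of a family -/
noncomputable def vG {k n : ℕ} (G : Finset ((Fin k → Fin n) × (Fin k → Finset (Fin n)))) : Finset (Fin n) :=
  G.biUnion (fun w => gv w.1 w.2)

theorem gv_sub {k n : ℕ} (G : Finset ((Fin k → Fin n) × (Fin k → Finset (Fin n))))
    (w : (Fin k → Fin n) × (Fin k → Finset (Fin n))) (hw : w ∈ G) : gv w.1 w.2 ⊆ vG G := by
  intro x hx
  unfold vG
  exact Finset.mem_biUnion.2 ⟨w, hw, hx⟩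

theorem fam_pm {k n : ℕ} (H : Finset (Finset (Fin n)))
    (G : Finset ((Fin k → Fin n) × (Fin k → Finset (Fin n)))) (hG : FamG H G) : PMon H (vG G) := by
  classical
  induction G using Finset.induction_on with
  | empty =>
    unfold vG
    rw [Finset.biUnion_empty]
    exact PMon_empty H
  | insert w G hw ih =>
    have h1 : FamG H G := ⟨fun w' hw' => hG.1 w' (Finset.mem_insert_of_mem hw'),
      fun w' hw' w'' hw'' => hG.2 w' (Finset.mem_insert_of_mem hw') w'' (Finset.mem_insert_of_mem hw'')⟩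
    have h2 := ih h1
    unfold vG at h2 ⊢
    rw [Finset.biUnion_insert]
    apply PMon_union H _ _ _ (gv_pm H w.1 w.2 (hG.1 w (Finset.mem_insert_self _ _))) h2
    rw [Finset.disjoint_biUnion_right]
    intro w' hw'
    exact hG.2 w (Finset.mem_insert_self _ _) w' (Finset.mem_insert_of_mem hw') (fun h => hw (h ▸ hw'))

theorem fam_abs {k n : ℕ} (hk : 1 ≤ k) (H : Finset (Finset (Fin n))) (q : ℕ) :
    ∀ (G : Finset ((Fin k → Fin n) × (Fin k → Finset (Fin n)))), FamG H G →
      ∀ U : Finset (Fin n), U.card = k * q → Disjoint U (vG G) → (∀ x, q ≤ NG H G x) →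
      PMon H (vG G ∪ U) := by
  classical
  induction q with
  | zero =>
    intro G hG U hU _ _
    rw [mul_zero, Finset.card_eq_zero] at hU
    rw [hU, Finset.union_empty]
    exact fam_pm H G hG
  | succ q ih =>
    intro G hG U hU hdis hN
    have hkU : k ≤ U.card := by rw [hU]; exact Nat.le_mul_of_pos_right k (Nat.succ_pos q)
    obtain ⟨A, hAU, hAk⟩ := Finset.exists_subset_card_eq hkU
    have him : univ.image (fun i => A.orderEmbOfFin hAk i) = A := Finset.image_orderEmbOfFin_univ A hAk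
    have h1 := hN (fun i => A.orderEmbOfFin hAk i)
    have h2 : (G.filter (fun w => AbsG H (fun i => A.orderEmbOfFin hAk i) w)).Nonempty := by
      rw [← Finset.card_pos]
      exact lt_of_lt_of_le (Nat.succ_pos q) h1
    obtain ⟨w, hw⟩ := h2
    obtain ⟨hwG, hwA⟩ := Finset.mem_filter.1 hw
    have hG' : FamG H (G.erase w) := ⟨fun w' hw' => hG.1 w' (Finset.mem_of_mem_erase hw'),
      fun w' hw' w'' hw'' => hG.2 w' (Finset.mem_of_mem_erase hw') w'' (Finset.mem_of_mem_erase hw'')⟩
    have hvG : vG G = gv w.1 w.2 ∪ vG (G.erase w) := by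
      have h3 : vG (insert w (G.erase w)) = gv w.1 w.2 ∪ vG (G.erase w) := by
        unfold vG
        rw [Finset.biUnion_insert]
      rw [Finset.insert_erase hwG] at h3
      exact h3
    have hdw : Disjoint (gv w.1 w.2) (vG (G.erase w)) := by
      unfold vG
      rw [Finset.disjoint_biUnion_right]
      intro w' hw'
      exact hG.2 w hwG w' (Finset.mem_of_mem_erase hw') (Finset.ne_of_mem_erase hw').symm
    have hU1 : Disjoint U (gv w.1 w.2) := by
      rw [hvG, Finset.disjoint_union_right] at hdis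
      exact hdis.1
    have hU2 : Disjoint U (vG (G.erase w)) := by
      rw [hvG, Finset.disjoint_union_right] at hdis
      exact hdis.2
    have hUA : (U \ A).card = k * q := by
      rw [Finset.card_sdiff_of_subset hAU, hU, hAk, Nat.mul_succ]; omega
    have h3 := ih (G.erase w) hG' (U \ A) hUA (hU2.mono_left Finset.sdiff_subset) (by
      intro x
      have h4 := hN x
      have h5 : (G.filter (fun w' => AbsG H x w')).card ≤ ((G.erase w).filter (fun w' => AbsG H x w')).card + 1 := by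
        rw [Finset.filter_erase]
        have := Finset.pred_card_le_card_erase (s := G.filter (fun w' => AbsG H x w')) (a := w)
        omega
      unfold NG at h4 ⊢
      omega)
    have h4 := gv_abs H w.1 w.2 (hG.1 w hwG) (fun i => A.orderEmbOfFin hAk i)
      (A.orderEmbOfFin hAk).injective (by
        rw [him]
        exact hU1.mono_left hAU) hwA
    rw [him] at h4
    have hd : Disjoint (gv w.1 w.2 ∪ A) (vG (G.erase w) ∪ (U \ A)) := by
      rw [Finset.disjoint_union_left, Finset.disjoint_union_right, Finset.disjoint_union_right]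
      exact ⟨⟨hdw, (hU1.mono_left Finset.sdiff_subset).symm⟩, hU2.mono_left hAU, Finset.disjoint_sdiff⟩
    have h5 := PMon_union H _ _ hd h4 h3
    have he : (gv w.1 w.2 ∪ A) ∪ (vG (G.erase w) ∪ (U \ A)) = vG G ∪ U := by
      rw [hvG]
      ext x
      simp only [Finset.mem_union, Finset.mem_sdiff]
      constructor
      · rintro ((h | h) | (h | h))
        · exact Or.inl (Or.inl h)
        · exact Or.inr (hAU h)
        · exact Or.inl (Or.inr h)
        · exact Or.inr h.1
      · rintro ((h | h) | h)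
        · exact Or.inl (Or.inl h)
        · exact Or.inr (Or.inl h)
        · by_cases hx : x ∈ A
          · exact Or.inl (Or.inr hx)
          · exact Or.inr (Or.inr ⟨h, hx⟩)
    rw [he] at h5
    exact h5

theorem fam_card {k n : ℕ} (H : Finset (Finset (Fin n))) (hH : ∀ e ∈ H, e.card = k)
    (G : Finset ((Fin k → Fin n) × (Fin k → Finset (Fin n)))) (hG : FamG H G) :
    (vG G).card ≤ G.card * (k * k) := by
  unfold vG
  refine (Finset.card_biUnion_le_card_mul _ _ (k * k) ?_)
  intro w hw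
  exact gv_card H hH w.1 w.2 (hG.1 w hw)

open Classical in
theorem NG_insert {k n : ℕ} (H : Finset (Finset (Fin n)))
    (G : Finset ((Fin k → Fin n) × (Fin k → Finset (Fin n)))) (x : Fin k → Fin n)
    (w : (Fin k → Fin n) × (Fin k → Finset (Fin n))) (hw : w ∉ G) :
    NG H (insert w G) x = NG H G x + (if AbsG H x w then 1 else 0) := by
  unfold NG
  rw [Finset.filter_insert]
  split_ifs with h
  · rw [Finset.card_insert_of_notMem]
    intro h'
    exact hw (Finset.mem_filter.1 h').1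
  · rfl

/-- the greedy choice of the family -/
theorem fam_greedy {k n : ℕ} (hk : 2 ≤ k) (hkn : k ≤ n) (H : Finset (Finset (Fin n)))
    (hH : ∀ e ∈ H, e.card = k) (γ δ B : ℝ) (hδ0 : 0 ≤ δ) (hγδ : γ * δ ≤ 1) (hδ : Real.exp (-1) = 1 - δ)
    (hgood : ∀ F : Finset (Fin n), (F.card : ℝ) ≤ B → ∀ x : Fin k → Fin n,
      γ * ((Om k n).card : ℝ) ≤
        ((@Finset.filter _ (fun w => GV H w.1 w.2 ∧ Disjoint (gv w.1 w.2) F ∧ AbsG H x w)
          (Classical.decPred _) (Om k n)).card : ℝ)) (t : ℕ) (ht : (t : ℝ) * ((k * k : ℕ) : ℝ) ≤ B) :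
    ∃ G : Finset ((Fin k → Fin n) × (Fin k → Finset (Fin n))), FamG H G ∧ G.card ≤ t ∧
      ∑ x : Fin k → Fin n, Real.exp (-(NG H G x : ℝ)) ≤ (1 - γ * δ) ^ t * (n : ℝ) ^ k := by
  classical
  have hOm : (Om k n).Nonempty := by
    unfold Om
    refine Finset.Nonempty.product ?_ ?_
    · haveI : Nonempty (Fin n) := ⟨⟨0, by omega⟩⟩
      exact Finset.univ_nonempty
    · rw [Fintype.piFinset_nonempty]
      intro _
      rw [Finset.powersetCard_nonempty]
      rw [Finset.card_univ, Fintype.card_fin]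
      omega
  induction t with
  | zero =>
    refine ⟨∅, ⟨fun w hw => absurd hw (Finset.notMem_empty w), fun w hw => absurd hw (Finset.notMem_empty w)⟩,
      by simp, ?_⟩
    simp [NG]
  | succ t ih =>
    have hkk : (0 : ℝ) ≤ ((k * k : ℕ) : ℝ) := Nat.cast_nonneg _
    obtain ⟨G, hG, hGc, hpot⟩ := ih (by
      refine le_trans (mul_le_mul_of_nonneg_right ?_ hkk) ht
      push_cast
      linarith)
    have hF : ((vG G).card : ℝ) ≤ B := by
      have h1 : (vG G).card ≤ (t + 1) * (k * k) :=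
        (fam_card H hH G hG).trans (Nat.mul_le_mul_right _ (by omega))
      refine le_trans ?_ ht
      exact_mod_cast h1
    obtain ⟨w, hw, hstep⟩ := pot_step (Om k n) hOm (univ : Finset (Fin k → Fin n))
      (fun x w => GV H w.1 w.2 ∧ Disjoint (gv w.1 w.2) (vG G) ∧ AbsG H x w)
      (fun x => Real.exp (-(NG H G x : ℝ))) (fun x => (Real.exp_pos _).le) γ δ hδ0 (by
        intro x _
        have := hgood (vG G) hF x
        convert this)
    have hpow : (1 - γ * δ) * ∑ x : Fin k → Fin n, Real.exp (-(NG H G x : ℝ)) ≤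
        (1 - γ * δ) ^ (t + 1) * (n : ℝ) ^ k := by
      rw [pow_succ]
      have := mul_le_mul_of_nonneg_left hpot (by linarith : 0 ≤ 1 - γ * δ)
      linarith
    by_cases hv : GV H w.1 w.2 ∧ Disjoint (gv w.1 w.2) (vG G)
    · have hwG : w ∉ G := by
        intro hwG
        have h1 : gv w.1 w.2 ⊆ vG G := gv_sub G w hwG
        have h3 : w.1 ⟨0, by omega⟩ ∈ gv w.1 w.2 := by
          unfold gv
          exact Finset.mem_union_left _ (Finset.mem_image_of_mem _ (Finset.mem_univ _))
        exact Finset.disjoint_left.1 hv.2 h3 (h1 h3)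
      refine ⟨insert w G, ⟨?_, ?_⟩, ?_, ?_⟩
      · intro w' hw'
        rcases Finset.mem_insert.1 hw' with rfl | h
        · exact hv.1
        · exact hG.1 w' h
      · have hdw : ∀ w' ∈ G, Disjoint (gv w.1 w.2) (gv w'.1 w'.2) := by
          intro w' hw'
          have h1 : gv w'.1 w'.2 ⊆ vG G := gv_sub G w' hw'
          exact Finset.disjoint_of_subset_right h1 hv.2
        intro w' hw' w'' hw'' hne
        rcases Finset.mem_insert.1 hw' with h | h <;> rcases Finset.mem_insert.1 hw'' with h' | h'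
        · exact absurd (h.trans h'.symm) hne
        · rw [h]; exact hdw w'' h'
        · rw [h']; exact (hdw w' h).symm
        · exact hG.2 w' h w'' h' hne
      · rw [Finset.card_insert_of_notMem hwG]; omega
      · refine le_trans (le_trans (le_of_eq ?_) hstep) hpow
        apply Finset.sum_congr rfl
        intro x _
        have hN := NG_insert H G x w hwG
        by_cases ha : AbsG H x w
        · rw [if_pos ha] at hN
          rw [if_pos ⟨hv.1, hv.2, ha⟩, ← hδ, ← Real.exp_add]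
          congr 1
          rw [hN]
          push_cast
          ring
        · rw [if_neg ha, add_zero] at hN
          rw [if_neg (fun h => ha h.2.2), mul_one, hN]
    · refine ⟨G, hG, by omega, ?_⟩
      refine le_trans (le_trans (le_of_eq ?_) hstep) hpow
      apply Finset.sum_congr rfl
      intro x _
      rw [if_neg (fun h => hv ⟨h.1, h.2.1⟩), mul_one]

/-- numerics -/
theorem evt10 (k : ℕ) (g a b : ℝ) (hg0 : 0 < g) (hg1 : g ≤ 1) (ha : 0 < a) (hb : b < g * a) :
    ∃ n0 : ℕ, ∀ n : ℕ, n0 ≤ n → (1 - g) ^ ⌊a * n⌋₊ * (n : ℝ) ^ k < Real.exp (-(b * n)) := by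
  set e := g * a - b with he
  have he0 : 0 < e := by linarith
  have h1 : Filter.Tendsto (fun n : ℕ => (e * (n : ℝ)) ^ k * Real.exp (-(e * (n : ℝ)))) Filter.atTop (nhds 0) := by
    have h2 : Filter.Tendsto (fun n : ℕ => e * (n : ℝ)) Filter.atTop Filter.atTop :=
      Filter.Tendsto.const_mul_atTop (by positivity) tendsto_natCast_atTop_atTop
    exact (Real.tendsto_pow_mul_exp_neg_atTop_nhds_zero k).comp h2
  have hpos : 0 < e ^ k * Real.exp (-g) := by positivity
  obtain ⟨n0, hn0⟩ := Filter.eventually_atTop.1 (h1.eventually (gt_mem_nhds hpos))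
  refine ⟨n0, fun n hn => ?_⟩
  have h2 := hn0 n hn
  set t := ⌊a * n⌋₊ with ht
  have h3 : a * n < t + 1 := Nat.lt_floor_add_one _
  have h4 : (1 - g) ^ t ≤ Real.exp (-(g * t)) := by
    have h5 : 1 - g ≤ Real.exp (-g) := Real.one_sub_le_exp_neg g
    calc (1 - g) ^ t ≤ (Real.exp (-g)) ^ t := pow_le_pow_left₀ (by linarith) h5 t
      _ = Real.exp (-(g * t)) := by
        rw [← Real.exp_nat_mul]
        congr 1
        ring
  have h6 : Real.exp (-(g * t)) ≤ Real.exp g * Real.exp (-(g * a * n)) := by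
    rw [← Real.exp_add]
    apply Real.exp_le_exp.2
    nlinarith
  have h7 : (0 : ℝ) ≤ (n : ℝ) ^ k := by positivity
  rw [mul_pow] at h2
  have h8 : (n : ℝ) ^ k * Real.exp (-(e * n)) < Real.exp (-g) := by
    have h9 : e ^ k * ((n : ℝ) ^ k * Real.exp (-(e * n))) < e ^ k * Real.exp (-g) := by
      rw [← mul_assoc]; exact h2
    exact lt_of_mul_lt_mul_left h9 (by positivity)
  calc (1 - g) ^ t * (n : ℝ) ^ k ≤ Real.exp g * Real.exp (-(g * a * n)) * (n : ℝ) ^ k :=
        mul_le_mul_of_nonneg_right (h4.trans h6) h7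
    _ = Real.exp g * Real.exp (-(b * n)) * ((n : ℝ) ^ k * Real.exp (-(e * n))) := by
        have : Real.exp (-(g * a * n)) = Real.exp (-(b * n)) * Real.exp (-(e * n)) := by
          rw [← Real.exp_add]
          congr 1
          rw [he]
          ring
        rw [this]
        ring
    _ < Real.exp g * Real.exp (-(b * n)) * Real.exp (-g) :=
        mul_lt_mul_of_pos_left h8 (by positivity)
    _ = Real.exp (-(b * n)) := by
        rw [mul_assoc, mul_comm (Real.exp (-(b * n))), ← mul_assoc, ← Real.exp_add]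
        simp

theorem t_S10 : S10 := by
  classical
  intro k hk c a hc ha
  obtain ⟨γ, hγ0, hγ1, β, hβ, n1, hgood⟩ := good_gadgets' k hk c hc
  obtain ⟨δ, hδ⟩ : ∃ δ, δ = 1 - Real.exp (-1) := ⟨_, rfl⟩
  have hexp1 : Real.exp (-1) < 1 := by
    rw [Real.exp_lt_one_iff]; norm_num
  have hexp0 : 0 < Real.exp (-1) := Real.exp_pos _
  have hδ0 : 0 < δ := by rw [hδ]; linarith
  have hδ1 : δ ≤ 1 := by rw [hδ]; linarith
  have hg0 : 0 < γ * δ := mul_pos hγ0 hδ0
  have hg1 : γ * δ ≤ 1 := by nlinarith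
  have hkpos : (0:ℝ) < (k:ℝ) := by exact_mod_cast (by omega : 0 < k)
  obtain ⟨a', ha'⟩ : ∃ a', a' = min a β / ((k : ℝ) * k) := ⟨_, rfl⟩
  have hmin : 0 < min a β := lt_min ha hβ
  have ha'0 : 0 < a' := by rw [ha']; positivity
  obtain ⟨n2, hn2⟩ := evt10 k (γ * δ) a' (γ * δ * a' / 2) hg0 hg1 ha'0 (by
    have : 0 < γ * δ * a' := by positivity
    linarith)
  refine ⟨γ * δ * a' / 2, by positivity, n1 + n2 + k, ?_⟩
  intro n hn H hH h1 h2
  have hkk : (0 : ℝ) < (k : ℝ) * k := by positivity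
  have hn0 : (0 : ℝ) ≤ n := Nat.cast_nonneg n
  have ht : ((⌊a' * n⌋₊ : ℕ) : ℝ) * ((k * k : ℕ) : ℝ) ≤ min a β * n := by
    push_cast
    have h3 : ((⌊a' * n⌋₊ : ℕ) : ℝ) ≤ a' * n := Nat.floor_le (by positivity)
    calc ((⌊a' * n⌋₊ : ℕ) : ℝ) * ((k : ℝ) * k) ≤ (a' * n) * ((k : ℝ) * k) := mul_le_mul_of_nonneg_right h3 hkk.le
      _ = min a β * n := by
        rw [ha']
        field_simp
  obtain ⟨G, hG, hGc, hpot⟩ := fam_greedy (n := n) hk (by omega) H hH γ δ (min a β * n) hδ0.le hg1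
    (by rw [hδ]; ring) (by
      intro F hF x
      have h3 := hgood n (by omega) H hH (by convert h1) (by
        intro x x'
        convert h2 x x') F (hF.trans (mul_le_mul_of_nonneg_right (min_le_right _ _) hn0)) x
      convert h3
      exact Iff.rfl) ⌊a' * n⌋₊ ht
  refine ⟨vG G, ?_, ?_⟩
  · have h3 : ((vG G).card : ℝ) ≤ ((⌊a' * n⌋₊ : ℕ) : ℝ) * ((k * k : ℕ) : ℝ) := by
      have h4 : (vG G).card ≤ ⌊a' * n⌋₊ * (k * k) :=
        (fam_card H hH G hG).trans (Nat.mul_le_mul_right _ hGc)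
      exact_mod_cast h4
    exact h3.trans (ht.trans (mul_le_mul_of_nonneg_right (min_le_left _ _) hn0))
  · intro U hUd hUc hUk
    obtain ⟨q, hq⟩ := hUk
    apply fam_abs (by omega : 1 ≤ k) H q G hG U hq hUd
    intro x
    by_contra hcon
    push Not at hcon
    have h3 : (NG H G x : ℝ) ≤ γ * δ * a' / 2 * n := by
      have h4 : (NG H G x : ℝ) ≤ (U.card : ℝ) := by
        have : NG H G x ≤ U.card := by
          rw [hq]
          exact hcon.le.trans (Nat.le_mul_of_pos_left q (by omega))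
        exact_mod_cast this
      linarith
    have h5 : Real.exp (-(γ * δ * a' / 2 * n)) ≤ Real.exp (-(NG H G x : ℝ)) :=
      Real.exp_le_exp.2 (by linarith)
    have h6 : Real.exp (-(NG H G x : ℝ)) ≤ ∑ x : Fin k → Fin n, Real.exp (-(NG H G x : ℝ)) :=
      Finset.single_le_sum (f := fun x => Real.exp (-(NG H G x : ℝ))) (fun x _ => (Real.exp_pos _).le)
        (Finset.mem_univ x)
    have h7 := hn2 n (by omega)
    linarith

end Pool.Agent.W163.CF
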