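import Pool.Agent.W163.CF.Fin4
import Pool.Agent.W163.CF.P10
import Pool.Agent.W358.CF156
import Pool.Agent.W358.CF47
import Pool.Agent.W358.CF9
import Pool.Agent.W365.CFS8
import Pool.Agent.W365.CFS11
import Pool.Agent.H115R4.All

/-!
# All the steps together
-/

set_option autoImplicit false

namespace Pool.Agent.W163.CF

theorem t_S1 : S1 := Pool.Agent.W358.CF.t_S1
theorem t_S5 : S5 := Pool.Agent.W358.CF.t_S5
theorem t_S6 : S6 := Pool.Agent.W358.CF.t_S6 t_S5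
theorem t_S4 : S4 := Pool.Agent.W358.CF.t_S4
theorem t_S7 : S7 := Pool.Agent.W358.CF.t_S7 t_S4 t_S6
theorem t_S8 : S8 := Pool.Agent.W365.CFS8.t_S8 H115R4.nibble_T t_S1 t_S7
theorem t_S9 : S9 := Pool.Agent.W358.CF.t_S9
theorem t_S11 : S11 := Pool.Agent.W365.CFS11.t_S11 t_S8 t_S9 t_S10

end Pool.Agent.W163.CF
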