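import Mathlib

/-!
# A digraph without closed 4-walks in which the ends of every 2-walk nearly dominate
-/

set_option autoImplicit false

namespace Pool.Agent.W163.CF

open Finset Classical

variable {V : Type} [Fintype V]

/-- indicator -/
noncomputable def ind (p : Prop) : ℝ := @ite ℝ p (Classical.propDecidable p) 1 0

theorem ind_t {p : Prop} (h : p) : ind p = 1 := by unfold ind; exact if_pos h

theorem ind_f {p : Prop} (h : ¬ p) : ind p = 0 := by unfold ind; exact if_neg h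

theorem ind_nn (p : Prop) : 0 ≤ ind p := by
  by_cases h : p
  · rw [ind_t h]; norm_num
  · rw [ind_f h]

theorem ind_le (p : Prop) : ind p ≤ 1 := by
  by_cases h : p
  · rw [ind_t h]
  · rw [ind_f h]; norm_num

/-- number of elements with a property, as a real number -/
noncomputable def cnt (P : V → Prop) : ℝ := ∑ v, ind (P v)

theorem cnt_eq (P : V → Prop) : cnt P = ((univ.filter P).card : ℝ) := by
  unfold cnt ind
  rw [Finset.sum_ite, Finset.sum_const_zero, add_zero, Finset.sum_const, nsmul_eq_mul, mul_one]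

theorem cnt_ncard (P : V → Prop) : cnt P = ({v | P v}.ncard : ℝ) := by
  rw [cnt_eq, Set.ncard_eq_toFinset_card']
  congr 2
  ext v
  simp

theorem cnt_nonneg (P : V → Prop) : 0 ≤ cnt P := by
  unfold cnt
  exact Finset.sum_nonneg fun v _ => ind_nn _

theorem cnt_pos {P : V → Prop} : 0 < cnt P ↔ ∃ v, P v := by
  rw [cnt_eq]
  constructor
  · intro h
    have h1 : 0 < (univ.filter P).card := by exact_mod_cast h
    obtain ⟨v, hv⟩ := Finset.card_pos.1 h1
    exact ⟨v, (Finset.mem_filter.1 hv).2⟩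
  · rintro ⟨v, hv⟩
    have h1 : 0 < (univ.filter P).card := Finset.card_pos.2 ⟨v, Finset.mem_filter.2 ⟨mem_univ _, hv⟩⟩
    exact_mod_cast h1

theorem cnt_mono {P Q : V → Prop} (h : ∀ v, P v → Q v) : cnt P ≤ cnt Q := by
  unfold cnt
  apply Finset.sum_le_sum
  intro v _
  by_cases hp : P v
  · rw [ind_t hp, ind_t (h v hp)]
  · rw [ind_f hp]
    exact ind_nn _

theorem cnt_zero {P : V → Prop} (h : ∀ v, ¬ P v) : cnt P = 0 := by
  unfold cnt
  apply Finset.sum_eq_zero
  intro v _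
  rw [ind_f (h v)]

theorem cnt_true : cnt (fun _ : V => True) = (Fintype.card V : ℝ) := by
  unfold cnt
  simp [ind_t]

/-- in a digon-free relation some vertex of `E` sends at most half of `E` arcs inside `E` -/
theorem few_out (D : V → V → Prop) (hdig : ∀ a b, D a b → D b a → False) (E : V → Prop)
    (hE : ∃ v, E v) : ∃ w, E w ∧ 2 * cnt (fun v => E v ∧ D w v) ≤ cnt E := by
  by_contra hcon
  push Not at hcon
  have h1 : ∑ w, ind (E w) * cnt E < ∑ w, ind (E w) * (2 * cnt (fun v => E v ∧ D w v)) := by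
    obtain ⟨w0, hw0⟩ := hE
    apply Finset.sum_lt_sum
    · intro w _
      by_cases hw : E w
      · rw [ind_t hw, one_mul, one_mul]
        exact (hcon w hw).le
      · rw [ind_f hw, zero_mul, zero_mul]
    · refine ⟨w0, mem_univ _, ?_⟩
      rw [ind_t hw0, one_mul, one_mul]
      exact hcon w0 hw0
  have h2 : ∑ w, ind (E w) * (2 * cnt (fun v => E v ∧ D w v)) =
      ∑ w, ∑ v, (ind (E w ∧ E v ∧ D w v) + ind (E w ∧ E v ∧ D w v)) := by
    apply Finset.sum_congr rfl
    intro w _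
    unfold cnt
    rw [Finset.mul_sum, Finset.mul_sum]
    apply Finset.sum_congr rfl
    intro v _
    by_cases hw : E w
    · rw [ind_t hw]
      by_cases hv : E v ∧ D w v
      · rw [ind_t hv, ind_t (p := E w ∧ E v ∧ D w v) ⟨hw, hv⟩]; norm_num
      · rw [ind_f hv, ind_f (p := E w ∧ E v ∧ D w v) (fun h => hv h.2)]; norm_num
    · rw [ind_f hw, ind_f (p := E w ∧ E v ∧ D w v) (fun h => hw h.1)]; norm_num
  have h3 : ∑ w, ind (E w) * cnt E = ∑ w, ∑ v, ind (E w) * ind (E v) := by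
    apply Finset.sum_congr rfl
    intro w _
    unfold cnt
    rw [Finset.mul_sum]
  have h4 : ∑ w, ∑ v, (ind (E w ∧ E v ∧ D w v) + ind (E w ∧ E v ∧ D w v)) =
      ∑ w, ∑ v, (ind (E w ∧ E v ∧ D w v) + ind (E v ∧ E w ∧ D v w)) := by
    have h5 : ∑ w, ∑ v, ind (E v ∧ E w ∧ D v w) = ∑ w, ∑ v, ind (E w ∧ E v ∧ D w v) :=
      Finset.sum_comm
    simp_rw [Finset.sum_add_distrib]
    rw [h5]
  rw [h2, h3, h4] at h1
  have h6 : ∑ w, ∑ v, (ind (E w ∧ E v ∧ D w v) + ind (E v ∧ E w ∧ D v w)) ≤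
      ∑ w, ∑ v, ind (E w) * ind (E v) := by
    apply Finset.sum_le_sum
    intro w _
    apply Finset.sum_le_sum
    intro v _
    by_cases hw : E w
    · by_cases hv : E v
      · rw [ind_t hw, ind_t hv]
        by_cases ha : D w v
        · rw [ind_f (p := E v ∧ E w ∧ D v w) (fun h => hdig w v ha h.2.2)]
          have := ind_le (E w ∧ E v ∧ D w v)
          linarith
        · rw [ind_f (p := E w ∧ E v ∧ D w v) (fun h => ha h.2.2)]
          have := ind_le (E v ∧ E w ∧ D v w)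
          linarith
      · rw [ind_f hv, ind_f (p := E v ∧ E w ∧ D v w) (fun h => hv h.1),
          ind_f (p := E w ∧ E v ∧ D w v) (fun h => hv h.2.1)]; norm_num
    · rw [ind_f hw, ind_f (p := E v ∧ E w ∧ D v w) (fun h => hw h.2.1),
          ind_f (p := E w ∧ E v ∧ D w v) (fun h => hw h.1)]; norm_num
  linarith

/-- one side of the K-lemma -/
theorem kside (D : V → V → Prop) (h4 : ∀ a b c d, D a b → D b c → D c d → D d a → False) (p : V)
    (hne : ∃ w, D p w)
    (hE : (∃ w u, D p w ∧ D p u ∧ D u w) ∨ ¬ ∃ w v, D p w ∧ D w v ∧ D v p) :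
    ∃ w, D p w ∧ 2 * cnt (fun v => (D p v ∨ D v p) ∧ D w v) ≤ cnt (fun v => D p v) := by
  by_cases hE1 : ∃ w u, D p w ∧ D p u ∧ D u w
  · obtain ⟨w0, u0, h1, h2, h3⟩ := hE1
    obtain ⟨w, ⟨hw1, u, hu1, hu2⟩, hw2⟩ := few_out D (fun a b hab hba => h4 a b a b hab hba hab hba)
      (fun v => D p v ∧ ∃ u, D p u ∧ D u v) ⟨w0, h1, u0, h2, h3⟩
    refine ⟨w, hw1, ?_⟩
    have h5 : cnt (fun v => (D p v ∨ D v p) ∧ D w v) ≤
        cnt (fun v => (D p v ∧ ∃ u, D p u ∧ D u v) ∧ D w v) := by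
      apply cnt_mono
      rintro v ⟨hv | hv, hwv⟩
      · exact ⟨⟨hv, w, hw1, hwv⟩, hwv⟩
      · exact (h4 p u w v hu1 hu2 hwv hv).elim
    have h6 : cnt (fun v => D p v ∧ ∃ u, D p u ∧ D u v) ≤ cnt (fun v => D p v) :=
      cnt_mono fun v hv => hv.1
    linarith
  · have hT : ¬ ∃ w v, D p w ∧ D w v ∧ D v p := by
      rcases hE with h | h
      · exact (hE1 h).elim
      · exact h
    obtain ⟨w, hw⟩ := hne
    refine ⟨w, hw, ?_⟩
    have h5 : cnt (fun v => (D p v ∨ D v p) ∧ D w v) = 0 := by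
      apply cnt_zero
      rintro v ⟨hv | hv, hwv⟩
      · exact hE1 ⟨v, w, hv, hw, hwv⟩
      · exact hT ⟨w, v, hw, hwv, hv⟩
    rw [h5, mul_zero]
    exact cnt_nonneg _

/-- the K-lemma -/
theorem kfull (D : V → V → Prop) (h4 : ∀ a b c d, D a b → D b c → D c d → D d a → False) (ε : ℝ)
    (h2 : ∀ y z x, D y z → D z x → (Fintype.card V : ℝ) - ε ≤ cnt (fun v => D x v) + cnt (fun v => D v y))
    (p : V) (hne : ∃ w, D p w) (hne' : ∃ w, D w p)
    (hE : (∃ w u, D p w ∧ D p u ∧ D u w) ∨ ¬ ∃ w v, D p w ∧ D w v ∧ D v p)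
    (hE' : (∃ w u, D w p ∧ D u p ∧ D w u) ∨ ¬ ∃ w v, D p w ∧ D w v ∧ D v p) :
    cnt (fun v => D p v) + cnt (fun v => D v p) ≤ 2 * ε := by
  obtain ⟨w, hw, hw2⟩ := kside D h4 p hne hE
  obtain ⟨y, hy, hy2⟩ := kside (fun a b => D b a)
    (fun a b c d hab hbc hcd hda => h4 a d c b hda hcd hbc hab) p hne' (by
      rcases hE' with ⟨w, u, h1, h2, h3⟩ | h
      · exact Or.inl ⟨w, u, h1, h2, h3⟩
      · right
        rintro ⟨w, v, h1, h2, h3⟩
        exact h ⟨v, w, h3, h2, h1⟩)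
  have h3 := h2 y p w hy hw
  have hpt : ∑ v, (ind (D p v) + ind (D v p)) ≤
      ∑ v, (ind ((D p v ∨ D v p) ∧ D w v) + ind ((D v p ∨ D p v) ∧ D v y)
        + (1 - ind (D w v) - ind (D v y))) := by
    apply Finset.sum_le_sum
    intro v _
    by_cases h5 : D w v
    · by_cases h6 : D v y
      · exact (h4 y p w v hy hw h5 h6).elim
      · by_cases h7 : D p v
        · by_cases h8 : D v p
          · exact (h4 p v p v h7 h8 h7 h8).elim
          · simp [ind, h5, h6, h7, h8]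
        · by_cases h8 : D v p
          · simp [ind, h5, h6, h7, h8]
          · simp [ind, h5, h6, h7, h8]
    · by_cases h6 : D v y
      · by_cases h7 : D p v
        · by_cases h8 : D v p
          · exact (h4 p v p v h7 h8 h7 h8).elim
          · simp [ind, h5, h6, h7, h8]
        · by_cases h8 : D v p
          · simp [ind, h5, h6, h7, h8]
          · simp [ind, h5, h6, h7, h8]
      · by_cases h7 : D p v
        · by_cases h8 : D v p
          · exact (h4 p v p v h7 h8 h7 h8).elim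
          · simp [ind, h5, h6, h7, h8]
        · by_cases h8 : D v p
          · simp [ind, h5, h6, h7, h8]
          · simp [ind, h5, h6, h7, h8]
  simp only [Finset.sum_add_distrib, Finset.sum_sub_distrib] at hpt
  have hcard : ∑ _v : V, (1 : ℝ) = (Fintype.card V : ℝ) := by simp
  rw [hcard] at hpt
  unfold cnt at *
  linarith

/-- the case with a triangle and no vertex dominating it -/
theorem triU (D : V → V → Prop) (h4 : ∀ a b c d, D a b → D b c → D c d → D d a → False) (ε : ℝ)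
    (h2 : ∀ y z x, D y z → D z x → (Fintype.card V : ℝ) - ε ≤ cnt (fun v => D x v) + cnt (fun v => D v y))
    (x0 x1 x2 : V) (h01 : D x0 x1) (h12 : D x1 x2) (h20 : D x2 x0)
    (hU : ¬ ∃ u, D u x0 ∧ D u x1 ∧ D u x2) (hW : ∃ w, D x0 w ∧ D x1 w ∧ D x2 w) :
    (Fintype.card V : ℝ) ≤ 3 * ε := by
  by_contra hcon
  push Not at hcon
  -- the set `S` of vertices reached by 2-walks from all three vertices
  obtain ⟨S, hS⟩ : ∃ S : V → Prop, S = fun v => (∃ u, D x0 u ∧ D u v) ∧ (∃ u, D x1 u ∧ D u v) ∧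
    (∃ u, D x2 u ∧ D u v) := ⟨_, rfl⟩
  -- vertices sending no arc to the triangle
  obtain ⟨P0, hP0⟩ : ∃ P0 : V → Prop, P0 = fun u => ¬ D u x0 ∧ ¬ D u x1 ∧ ¬ D u x2 := ⟨_, rfl⟩
  have hSP : ∀ v, S v → P0 v := by
    intro v hv
    rw [hS] at hv
    obtain ⟨⟨u0, a0, b0⟩, ⟨u1, a1, b1⟩, ⟨u2, a2, b2⟩⟩ := hv
    rw [hP0]
    refine ⟨fun h => ?_, fun h => ?_, fun h => ?_⟩
    · exact h4 x1 u1 v x0 a1 b1 h h01
    · exact h4 x2 u2 v x1 a2 b2 h h12
    · exact h4 x0 u0 v x2 a0 b0 h h20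
  have hNS : ∀ v u, S v → D v u → P0 u := by
    intro v u hv hvu
    rw [hS] at hv
    obtain ⟨⟨u0, a0, b0⟩, ⟨u1, a1, b1⟩, ⟨u2, a2, b2⟩⟩ := hv
    rw [hP0]
    refine ⟨fun h => ?_, fun h => ?_, fun h => ?_⟩
    · exact h4 x0 u0 v u a0 b0 hvu h
    · exact h4 x1 u1 v u a1 b1 hvu h
    · exact h4 x2 u2 v u a2 b2 hvu h
  have hdeg : ∀ v, S v → 2 * cnt P0 < 3 * cnt (fun u => D v u) := by
    intro v hv
    have hv' := hv
    rw [hS] at hv'
    obtain ⟨⟨u0, a0, b0⟩, ⟨u1, a1, b1⟩, ⟨u2, a2, b2⟩⟩ := hv'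
    have e0 := h2 x0 u0 v a0 b0
    have e1 := h2 x1 u1 v a1 b1
    have e2 := h2 x2 u2 v a2 b2
    have hsum : ∑ u, (ind (D u x0) + ind (D u x1) +
        ind (D u x2)) ≤ ∑ u, (2 - 2 * ind (P0 u)) := by
      apply Finset.sum_le_sum
      intro u _
      by_cases c0 : D u x0 <;> by_cases c1 : D u x1 <;> by_cases c2 : D u x2
      · exact (hU ⟨u, c0, c1, c2⟩).elim
      all_goals
        simp only [hP0, ind, c0, c1, c2, if_true, if_false, not_true_eq_false, not_false_eq_true, and_self,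
          and_false, and_true, false_and, true_and]
        norm_num
    simp only [Finset.sum_add_distrib, Finset.sum_sub_distrib, ← Finset.mul_sum] at hsum
    have hcard : ∑ _v : V, (2 : ℝ) = 2 * (Fintype.card V : ℝ) := by
      rw [Finset.sum_const, nsmul_eq_mul, Finset.card_univ]; ring
    rw [hcard] at hsum
    unfold cnt at *
    linarith
  obtain ⟨w, hw0, hw1, hw2⟩ := hW
  have hwS : S w := by
    rw [hS]
    exact ⟨⟨x1, h01, hw1⟩, ⟨x2, h12, hw2⟩, ⟨x0, h20, hw0⟩⟩
  have hwN : cnt (fun u => D w u) ≤ cnt S := by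
    apply cnt_mono
    intro u hu
    rw [hS]
    exact ⟨⟨w, hw0, hu⟩, ⟨w, hw1, hu⟩, ⟨w, hw2, hu⟩⟩
  have hw3 := hdeg w hwS
  obtain ⟨v, hv, hv2⟩ := few_out D (fun a b hab hba => h4 a b a b hab hba hab hba) S ⟨w, hwS⟩
  have hv3 := hdeg v hv
  have hpt : ∑ u, ind (D v u) ≤
      ∑ u, (ind (P0 u) - ind (S u) + ind (S u ∧ D v u)) := by
    apply Finset.sum_le_sum
    intro u _
    by_cases c1 : S u
    · have c2 := hSP u c1
      by_cases c3 : D v u
      · simp [ind, c1, c2, c3]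
      · simp [ind, c1, c2, c3]
    · by_cases c3 : D v u
      · have c2 := hNS v u hv c3
        simp [ind, c1, c2, c3]
      · by_cases c2 : P0 u
        · simp [ind, c1, c2, c3]
        · simp [ind, c1, c2, c3]
  simp only [Finset.sum_add_distrib, Finset.sum_sub_distrib] at hpt
  unfold cnt at *
  linarith

/-- **Lemma Z.** -/
theorem lemmaZ (D : V → V → Prop) (h4 : ∀ a b c d, D a b → D b c → D c d → D d a → False) (ε : ℝ)
    (hw : ∃ y z x, D y z ∧ D z x)
    (h2 : ∀ y z x, D y z → D z x → (Fintype.card V : ℝ) - ε ≤ cnt (fun v => D x v) + cnt (fun v => D v y)) :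
    (Fintype.card V : ℝ) ≤ 3 * ε := by
  by_cases hT : ∃ x0 x1 x2, D x0 x1 ∧ D x1 x2 ∧ D x2 x0
  · obtain ⟨x0, x1, x2, h01, h12, h20⟩ := hT
    by_contra hcon
    push Not at hcon
    have e0 := h2 x0 x1 x2 h01 h12
    have e1 := h2 x1 x2 x0 h12 h20
    have e2 := h2 x2 x0 x1 h20 h01
    by_cases hU : ∃ u, D u x0 ∧ D u x1 ∧ D u x2
    · by_cases hW : ∃ w, D x0 w ∧ D x1 w ∧ D x2 w
      · obtain ⟨u, hu0, hu1, hu2⟩ := hU
        obtain ⟨w, hw0, hw1, hw2⟩ := hW
        have k0 := kfull D h4 ε h2 x0 ⟨_, h01⟩ ⟨_, h20⟩ (Or.inl ⟨w, x1, hw0, h01, hw1⟩)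
          (Or.inl ⟨u, x2, hu0, h20, hu2⟩)
        have k1 := kfull D h4 ε h2 x1 ⟨_, h12⟩ ⟨_, h01⟩ (Or.inl ⟨w, x2, hw1, h12, hw2⟩)
          (Or.inl ⟨u, x0, hu1, h01, hu0⟩)
        have k2 := kfull D h4 ε h2 x2 ⟨_, h20⟩ ⟨_, h12⟩ (Or.inl ⟨w, x0, hw2, h20, hw0⟩)
          (Or.inl ⟨u, x1, hu2, h12, hu1⟩)
        linarith
      · -- reverse the relation
        have := triU (fun a b => D b a) (fun a b c d hab hbc hcd hda => h4 a d c b hda hcd hbc hab) ε
          (fun y z x hyz hzx => by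
            have := h2 x z y hzx hyz
            linarith) x0 x2 x1 h20 h12 h01 (by
              rintro ⟨u, h1, h2, h3⟩
              exact hW ⟨u, h1, h3, h2⟩) (by
              obtain ⟨u, h1, h2, h3⟩ := hU
              exact ⟨u, h1, h3, h2⟩)
        linarith
    · have hW : ∃ w, D x0 w ∧ D x1 w ∧ D x2 w := by
        by_contra hW
        have hsum : ∑ v, (ind (D x0 v) + ind (D x1 v) +
          ind (D x2 v) + (ind (D v x0) +
          ind (D v x1) + ind (D v x2))) ≤ ∑ _v : V, (2 : ℝ) := by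
          apply Finset.sum_le_sum
          intro v _
          have z00 : D x0 v → D v x0 → False := fun a b => h4 _ _ _ _ a b a b
          have z11 : D x1 v → D v x1 → False := fun a b => h4 _ _ _ _ a b a b
          have z22 : D x2 v → D v x2 → False := fun a b => h4 _ _ _ _ a b a b
          have z01 : D x0 v → D v x1 → False := fun a b => h4 x0 v x1 x2 a b h12 h20
          have z12 : D x1 v → D v x2 → False := fun a b => h4 x1 v x2 x0 a b h20 h01
          have z20 : D x2 v → D v x0 → False := fun a b => h4 x2 v x0 x1 a b h01 h12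
          have nu : ¬ (D v x0 ∧ D v x1 ∧ D v x2) := fun h => hU ⟨v, h⟩
          have nw : ¬ (D x0 v ∧ D x1 v ∧ D x2 v) := fun h => hW ⟨v, h⟩
          by_cases a0 : D x0 v <;> by_cases a1 : D x1 v <;> by_cases a2 : D x2 v <;>
          by_cases b0 : D v x0 <;> by_cases b1 : D v x1 <;> by_cases b2 : D v x2 <;>
          first
            | exact (nw ⟨a0, a1, a2⟩).elim
            | exact (nu ⟨b0, b1, b2⟩).elim
            | exact (z00 a0 b0).elim
            | exact (z11 a1 b1).elim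
            | exact (z22 a2 b2).elim
            | exact (z01 a0 b1).elim
            | exact (z12 a1 b2).elim
            | exact (z20 a2 b0).elim
            | (simp only [ind, a0, a1, a2, b0, b1, b2, if_true, if_false]; norm_num)
        simp only [Finset.sum_add_distrib] at hsum
        have hcard : ∑ _v : V, (2 : ℝ) = 2 * (Fintype.card V : ℝ) := by
          rw [Finset.sum_const, nsmul_eq_mul, Finset.card_univ]; ring
        rw [hcard] at hsum
        unfold cnt at *
        linarith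
      have := triU D h4 ε h2 x0 x1 x2 h01 h12 h20 hU hW
      linarith
  · -- no triangle
    by_contra hcon
    push Not at hcon
    have hn0 : (0 : ℝ) ≤ (Fintype.card V : ℝ) := Nat.cast_nonneg _
    have hK : ∀ p, (∃ w, D p w) → (∃ w, D w p) → cnt (fun v => D p v) + cnt (fun v => D v p) ≤ 2 * ε := by
      intro p h1 h1'
      have hT' : ¬ ∃ w v, D p w ∧ D w v ∧ D v p := by
        rintro ⟨w, v, a, b, c⟩
        exact hT ⟨p, w, v, a, b, c⟩
      exact kfull D h4 ε h2 p h1 h1' (Or.inr hT') (Or.inr hT')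
    obtain ⟨y0, z0, x0, hyz, hzx⟩ := hw
    obtain ⟨z, hz, hmax⟩ := Finset.exists_max_image (univ.filter (fun z => (∃ w, D z w) ∧ ∃ w, D w z))
      (fun z => cnt (fun v => D z v)) ⟨z0, Finset.mem_filter.2 ⟨mem_univ _, ⟨x0, hzx⟩, ⟨y0, hyz⟩⟩⟩
    obtain ⟨-, ⟨u, hzu⟩, ⟨y, hyz'⟩⟩ := Finset.mem_filter.1 hz
    have kz := hK z ⟨u, hzu⟩ ⟨y, hyz'⟩
    have hzpos : 0 < cnt (fun v => D z v) := cnt_pos.2 ⟨u, hzu⟩
    have husink : ∀ v, ¬ D u v := by
      intro v huv
      have e1 := h2 z u v hzu huv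
      have e2 : cnt (fun t => D z t) < cnt (fun t => D v t) := by linarith
      have e3 : ∃ t, D v t := cnt_pos.1 (by linarith)
      have e4 := hmax v (Finset.mem_filter.2 ⟨mem_univ _, e3, ⟨u, huv⟩⟩)
      linarith
    have hu0 : cnt (fun v => D u v) = 0 := cnt_zero husink
    have e1 := h2 y z u hyz' hzu
    rw [hu0, zero_add] at e1
    have e2 : 0 < cnt (fun v => D v y) := by
      by_cases hε : 0 ≤ ε
      · linarith
      · push Not at hε
        linarith
    have e3 := hK y ⟨z, hyz'⟩ (cnt_pos.1 e2)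
    have e4 := cnt_nonneg (fun v => D y v)
    linarith

end Pool.Agent.W163.CF
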