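import Mathlib
import Pool.Agent.W163.CF.LemZ

/-!
# Directed `t`-cycles, `t ≥ 6` even: two combinatorial statements with written proofs
(`ind`, `cnt`, `few_out` are in `LemZ.lean`)
-/

set_option autoImplicit false

namespace Pool.Agent.W163.CF

open Finset

/-! ## TL: the tile lemma -/

/-- **TL.** Let `t` be even, `1 ≤ ℓ < t`; `w ≥ 0`, `P`, `Q` are `t`-periodic on `ℤ`, `∑ w = 1` over a
period. (H1): a segment of `t - ℓ` positions which starts in `P` and ends in `Q` has weight `≥ 1`.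
(H2): two segments (possibly equal or overlapping) which both start in `P` and end in `Q` and have
`m + m' = t - 2 ℓ` positions together have total weight `≥ 1`. Then
`∑_{i : w i ≠ 0} ([i ∈ P] + [i ∈ Q]) ≤ t`.

PROOF. Replace `P`, `Q` by `P ∩ S`, `Q ∩ S`, `S = {w ≠ 0}` (the hypotheses stay true), and suppose
`#P + #Q ≥ t + 1` (over a period). Put `P' x :⇔ P (x + ℓ + 1)`. Call `x` *both* (`B x`) if
`P' x ∧ Q x`, *none* (`N x`) if `¬ P' x ∧ ¬ Q x`. Since `[P' x] + [Q x] = 1 + [B x] - [N x]`, over a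
period `#B ≥ #N + 1`.

(F1) If `B x` then (H1) for the segment from `x + ℓ + 1` to `x + t` shows `w (x+j) = 0` for
`1 ≤ j ≤ ℓ`; hence `¬ Q (x + j)` and `¬ P' (x - j)` for `1 ≤ j ≤ ℓ`. Also `w x > 0` (as `Q x`) and
`w (x + ℓ + 1) > 0` (as `P' x`).
If `2 ℓ ≥ t`: there is a `B x`, so at least `ℓ` zero positions, `#S ≤ t - ℓ ≤ t/2`, and
`#P + #Q ≤ 2 #S ≤ t`, contradiction. So `2 ℓ + 2 ≤ t` (`t` is even).

(F2) `B x`, `P' (x+1)`, and `P' p`, `Q (p+1)` with `x + ℓ + 1 ≤ p ≤ x + t - ℓ - 1` is impossible: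
the segments `[x+ℓ+2, p+1]` and `[p+ℓ+1, x+t]` have `(p - x - ℓ) + (x + t - p - ℓ) = t - 2ℓ` positions,
they are disjoint modulo `t` and miss the position `x + ℓ + 1` of positive weight, so their weight is `< 1`.
(F3) `B x`, `Q (x-1)`, and `P' p`, `Q (p+1)` with `x + ℓ ≤ p ≤ x + t - ℓ - 2` is impossible:
the segments `[x+ℓ+1, p+1]` and `[p+ℓ+1, x-1+t]` miss the position `x`.
(F4) Hence if `B x`, `P' (x+1)`, `Q (x-1)`, there is no `p` at all with `P' p ∧ Q (p+1)`: by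
periodicity `x - ℓ ≤ p ≤ x + t - ℓ - 1`; for `x-ℓ ≤ p ≤ x-1`, `P' p` fails; for `x ≤ p ≤ x+ℓ-1`,
`Q (p+1)` fails; the rest is (F2) (`p ≠ x+ℓ`) and (F3) (`p ≠ x+t-ℓ-1`), note `2 ℓ + 2 ≤ t`.
(F5) If `x < x'`, `P' x`, `Q x'` and there is no `N` strictly between, then there is `p`,
`x ≤ p < x'`, with `P' p ∧ Q (p+1)`: the largest `p < x'` with `P' p`.
(F6) There are `x < x' ≤ x + t`, both `B`, with no `N` strictly between. (If there is no `N`,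
`x' = x + t`. Otherwise send a `B` `x ∈ [0,t)` to (the residue of) the first `N` after `x`; as
`#B > #N` two `B`'s `x₁ < x₂` have the same image; if the first `N` after `x₁` comes after `x₂` then
`(x₁, x₂)` works, otherwise `(x₂, x₁ + t)` works.)
(F7) Case `ℓ ≥ 2`. Some `B` `x₀` has no `N` next to it: otherwise send each `B` to a neighbouring `N`;
two `B`'s go to the same `N` `y` (mod `t`), so they are `y-1` and `y+1`, contradicting (F1) as `ℓ ≥ 2`.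
By (F1) `¬ Q (x₀+1)` and `¬ P' (x₀-1)`, so `P' (x₀+1)` and `Q (x₀-1)`. Now (F4), (F5), (F6) contradict.
(F8) Case `ℓ = 1`. Take `x, x'` from (F6), `p` from (F5). By (F1) `x' ≥ x+2`, `¬ N (x+1)` so
`P' (x+1)`; similarly `Q (x'-1)`; `p ≠ x`, `p ≠ x'-1`. (F2) at `x` gives `p = x+1`; (F3) at `x' - t`
gives `p = x'-2`. So `x' = x+3`, `P' (x+1)`, `Q (x+2)`.
(F9) For a `B` `y` with `x+3 ≤ y ≤ x+t-1`: `¬ P' (y+1)` — otherwise the segments `[x+3, y]` and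
`[y+3, x+2+t]` (`(y-x-2) + (t-y+x) = t-2` positions) miss `y+2`, and `w (y+2) > 0` by `P' y`. So `N (y+1)`.
(F10) For a `B` `y` with `x+4 ≤ y ≤ x+t`: `¬ Q (y-1)` — otherwise the segments `[x+3, y-1]` and
`[y+2, x+2+t]` miss `y`, `w y > 0`. So `N (y-1)`.
(F11) `y ↦ y+1` maps the `B`'s of `(x, x+t)` (they are all `≥ x+3`) injectively to the `N`'s; as
`#N ≤ #B - 1` it is onto the `N`'s of `(x, x+t)`. By induction on `y`, every `B` `y` in `[x+3, x+t)` has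
`y - x` odd: for `y ≥ x+4`, `N (y-1)` by (F10), so `y - 2` is a `B`, `≥ x+3`. And `N (x+t-1)` by (F10) for
`y = x+t`, so `x+t-2` is a `B` in `[x+3,x+t)`, `t - 2` is odd: contradiction (`t` is even). -/
def TL : Prop := ∀ (t l : ℕ) (w : ℤ → ℝ) (P Q : ℤ → Prop), Even t → 1 ≤ l → l < t →
  (∀ i, 0 ≤ w i) → (∀ i, w (i + t) = w i) → (∀ i, P (i + t) ↔ P i) → (∀ i, Q (i + t) ↔ Q i) →
  ∑ i ∈ range t, w (i : ℤ) = 1 →
  (∀ a : ℤ, P a → Q (a + t - l - 1) → 1 ≤ ∑ i ∈ range (t - l), w (a + (i : ℤ))) →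
  (∀ (a a' : ℤ) (m m' : ℕ), 1 ≤ m → 1 ≤ m' → m + m' + 2 * l = t →
    P a → Q (a + m - 1) → P a' → Q (a' + m' - 1) →
    1 ≤ ∑ i ∈ range m, w (a + (i : ℤ)) + ∑ i ∈ range m', w (a' + (i : ℤ))) →
  ∑ i ∈ range t, ind (w (i : ℤ) ≠ 0) * (ind (P (i : ℤ)) + ind (Q (i : ℤ))) ≤ (t : ℝ)

/-! ## ZT: digraphs without closed `t`-walks -/

/-- there is a walk of length `n` from `x` to `y` -/
def Wk {V : Type} (D : V → V → Prop) : ℕ → V → V → Prop
  | 0, x, y => x = y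
  | n + 1, x, y => ∃ z, D x z ∧ Wk D n z y

/-- **ZT.** Let `t ≥ 6` be even, `D` a finite relation without closed `t`-walks (walks may repeat vertices;
so no loops and no digons, as `t` is even). Suppose there is a `(t-2)`-walk, and for every `(t-2)`-walk from `y` to `x`
`outdeg x + indeg y ≥ n - ε`. Then `n ≤ (t-1) ε`.

PROOF. Write `N⁺`, `N⁻` for neighbourhoods, `a(x) = |N⁺(x)|`, `b(y) = |N⁻(y)|`, `c = t - 1`. For a `(t-2)`-walk from `y` to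
`x`: `N⁺(x) ∩ N⁻(y) = ∅` (closed `t`-walk). `few_out` (LemZ.lean): in a digon-free relation every nonempty
set `E` has `w ∈ E` with `|N⁺(w) ∩ E| ≤ |E|/2`; apply it to the converse relation for in-neighbours.
Some `(t-2)`-walk has `a(x) + b(y) ≤ n` so `ε ≥ 0`.

(i) No closed `(t-1)`-walk. For every `(t-3)`-walk from `y` to `x`, `A = N⁺(x)` and `B = N⁻(y)` are disjoint;
for `w ∈ A` there is a `(t-2)`-walk from `y` to `w`, so `a(w) ≥ n - ε - |B|` and `N⁺(w) ∩ B = ∅`: `w` misses at most `ε`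
vertices of the complement of `B`, in particular of `A`. With `few_out` in `A`: `|A| - ε ≤ |A|/2`, so `|A| ≤ 2ε`.
Symmetrically `|B| ≤ 2ε`. So `a(x) ≤ 2ε` for every end `x` of a `(t-3)`-walk, and `b(y) ≤ 2ε` for every
start `y`. A `(t-2)`-walk from `y` to `x` gives `n - ε ≤ a(x) + b(y) ≤ 4ε`, `n ≤ 5ε ≤ (t-1)ε`.

(ii) There is a closed `(t-1)`-walk `x_0, …, x_{c-1}` (indices mod `c`). Suppose `n > cε`. For a vertex `v` put `P_v = {i : x_i → v}`,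
`Q_v = {i : v → x_i}`. If `i ∈ P_v` then `i ∉ Q_v` (digon) and `i+1 ∉ Q_v` (`x_{i+1} ⇝ x_i` has `c - 1 = t - 2` steps).
So `Q_v` is disjoint from `P_v ∪ (P_v + 1)`, which has `≥ |P_v| + 1` elements unless `P_v` is empty or
everything; hence `|P_v| + |Q_v| ≤ c - 1` unless `Q_v` is everything (`v ∈ U`) or `P_v` is everything (`v ∈ W`), when it is `≤ c`.
There is a `(t-2)`-walk from `x_{i+1}` to `x_i`, so `∑_i (a(x_i) + b(x_i)) ≥ c (n - ε)`; and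
`∑_i (a(x_i) + b(x_i)) = ∑_v (|P_v| + |Q_v|) ≤ (c-1) n + |U| + |W|`. So `|U| + |W| ≥ n - cε > 0`.
(ii.1) `U`, `W` both nonempty. Fix `p = x_i`; let `E⁺` be the set of `w` reachable from `p` by a `k`-walk for every `k = 1, …, t-2`
(so `E⁺ ⊆ N⁺(p)`, `W ⊆ E⁺`), and `E⁻` similarly backwards (`U ⊆ E⁻`). Choose `w ∈ E⁺` with `|N⁺(w) ∩ E⁺| ≤ |E⁺|/2`
and `y ∈ E⁻` with `|N⁻(y) ∩ E⁻| ≤ |E⁻|/2`. `N⁺(w) ∩ N⁻(p) = ∅` (a `(t-2)`-walk from `p` to `w`), `N⁺(w) ∩ N⁺(p) ⊆ E⁺`; similarly for `y`.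
There is a `(t-2)`-walk from `y` through `p` to `w`, so `N⁺(w) ∩ N⁻(y) = ∅`, `a(w) + b(y) ≥ n - ε`. Counting the (disjoint) union
`N⁺(p) ∪ N⁻(p)`: `a(p) + b(p) ≤ a(p)/2 + b(p)/2 + ε` (see `kfull` in LemZ.lean), so `a(p) + b(p) ≤ 2ε`. Summing over `i`:
`c (n - ε) ≤ 2cε`, `n ≤ 3ε`.
(ii.2) `U` empty, `W ∋ w` (see `triU` in LemZ.lean, which is the case `c = 3`). `Π = {u : Q_u = ∅}`, `Σ = {v : ` for every `i` there is a
`(t-2)`-walk from `x_i` to `v}`. For `v ∈ Σ`: `N⁺(v) ⊆ Π` (closed `t`-walk), `v ∈ Π` (`v → x_j` and the walk from `x_{j+1}` to `v`), and summing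
`a(v) + b(x_i) ≥ n - ε` over `i` with `∑ b(x_i) = ∑_u |Q_u| ≤ (c-1)(n - |Π|)`: `c a(v) ≥ n - cε + (c-1)|Π| > (c-1)|Π|`. `W ⊆ Σ`, and
`N⁺(w) ⊆ Σ` (`x_i, …, x_{i+t-4}, w, v`), so `|Σ| ≥ a(w) > (c-1)|Π|/c`. For `v ∈ Σ`, `|N⁺(v) ∩ Σ| ≥ a(v) - |Π \ Σ| > |Σ| - |Π|/c
> |Σ| - |Σ|/(c-1) ≥ |Σ|/2`, contradicting `few_out` in `Σ`.
(ii.3) `W` empty, `U` nonempty: (ii.2) for the converse relation. -/
def ZT : Prop := ∀ t : ℕ, 6 ≤ t → Even t → ∀ (V : Type) [Fintype V] (D : V → V → Prop) (ε : ℝ),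
  (∀ x, ¬ Wk D t x x) → (∃ y x, Wk D (t - 2) y x) →
  (∀ y x, Wk D (t - 2) y x → (Fintype.card V : ℝ) - ε ≤ cnt (fun v => D x v) + cnt (fun v => D v y)) →
  (Fintype.card V : ℝ) ≤ ((t : ℝ) - 1) * ε

end Pool.Agent.W163.CF
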