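import Mathlib
import Pool.Agent.W163.CF.Defs
import Pool.Agent.W163.CF.LemZ

/-!
# Optimal fractional covers and tilings by closed `d`-walks
-/

set_option autoImplicit false

namespace Pool.Agent.W163.CF

open Finset

variable {α : Type} [Fintype α]

/-- number of visits of `f` to `v` -/
noncomputable def mult {k : ℕ} (v : α) (f : Fin k → α) : ℝ := ∑ i, ind (f i = v)

/-- load of a vertex -/
noncomputable def load {k : ℕ} [DecidableEq α] (τ : (Fin k → α) → ℝ) (v : α) : ℝ := ∑ f, τ f * mult v f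

/-- optimal pair -/
structure Opt [DecidableEq α] {k : ℕ} (R : α → α → Prop) (d : Fin k → Bool) (w : α → ℝ) (τ : (Fin k → α) → ℝ) :
    Prop where
  w_nn : ∀ v, 0 ≤ w v
  t_nn : ∀ f, 0 ≤ τ f
  supp : ∀ f, 0 < τ f → PW R d f
  cover : ∀ f, PW R d f → 1 ≤ ∑ i, w (f i)
  le_one : ∀ v, load τ v ≤ 1
  eq : ∑ v, w v = ∑ f, τ f

theorem sum_mult {k : ℕ} (g : α → ℝ) (f : Fin k → α) : ∑ v, g v * mult v f = ∑ i, g (f i) := by
  unfold mult
  simp_rw [Finset.mul_sum]
  rw [Finset.sum_comm]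
  apply Finset.sum_congr rfl
  intro i _
  rw [Finset.sum_eq_single (f i)]
  · rw [ind_t rfl, mul_one]
  · intro v _ hv
    rw [ind_f (fun h => hv h.symm), mul_zero]
  · intro h
    exact (h (mem_univ _)).elim

theorem sum_load {k : ℕ} [DecidableEq α] (g : α → ℝ) (τ : (Fin k → α) → ℝ) :
    ∑ v, g v * load τ v = ∑ f, τ f * ∑ i, g (f i) := by
  unfold load
  simp_rw [Finset.mul_sum]
  rw [Finset.sum_comm]
  apply Finset.sum_congr rfl
  intro f _
  rw [← Finset.mul_sum, ← sum_mult g f, Finset.mul_sum]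
  apply Finset.sum_congr rfl
  intro v _
  ring

namespace Opt

variable [DecidableEq α] {k : ℕ} {R : α → α → Prop} {d : Fin k → Bool} {w : α → ℝ}
  {τ : (Fin k → α) → ℝ}

theorem slack_eq (h : Opt R d w τ) : ∑ v, w v * (1 - load τ v) + ∑ f, τ f * (∑ i, w (f i) - 1) = 0 := by
  have h1 := sum_load w τ
  have h2 := h.eq
  simp_rw [mul_sub, mul_one, Finset.sum_sub_distrib]
  rw [h1, h2]
  ring

theorem t_nn' (h : Opt R d w τ) (f : Fin k → α) : 0 ≤ τ f * (∑ i, w (f i) - 1) := by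
  rcases (h.t_nn f).lt_or_eq with h1 | h1
  · have := h.cover f (h.supp f h1)
    exact mul_nonneg h1.le (by linarith)
  · rw [← h1, zero_mul]

theorem w_nn' (h : Opt R d w τ) (v : α) : 0 ≤ w v * (1 - load τ v) :=
  mul_nonneg (h.w_nn v) (by linarith [h.le_one v])

/-- complementary slackness -/
theorem tight1 (h : Opt R d w τ) (v : α) (hv : w v ≠ 0) : load τ v = 1 := by
  have h1 : 0 ≤ ∑ v, w v * (1 - load τ v) := Finset.sum_nonneg fun v _ => h.w_nn' v
  have h2 : 0 ≤ ∑ f, τ f * (∑ i, w (f i) - 1) := Finset.sum_nonneg fun f _ => h.t_nn' f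
  have h3 := h.slack_eq
  have h4 : ∑ v, w v * (1 - load τ v) = 0 := by linarith
  rw [Finset.sum_eq_zero_iff_of_nonneg (fun v _ => h.w_nn' v)] at h4
  have h5 := h4 v (mem_univ _)
  rcases mul_eq_zero.1 h5 with h6 | h6
  · exact (hv h6).elim
  · linarith

theorem tight2 (h : Opt R d w τ) (f : Fin k → α) (hf : 0 < τ f) : ∑ i, w (f i) = 1 := by
  have h1 : 0 ≤ ∑ v, w v * (1 - load τ v) := Finset.sum_nonneg fun v _ => h.w_nn' v
  have h2 : 0 ≤ ∑ f, τ f * (∑ i, w (f i) - 1) := Finset.sum_nonneg fun f _ => h.t_nn' f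
  have h3 := h.slack_eq
  have h4 : ∑ f, τ f * (∑ i, w (f i) - 1) = 0 := by linarith
  rw [Finset.sum_eq_zero_iff_of_nonneg (fun f _ => h.t_nn' f)] at h4
  have h5 := h4 f (mem_univ _)
  rcases mul_eq_zero.1 h5 with h6 | h6
  · exact (hf.ne' h6).elim
  · linarith

end Opt

/-- optimal pairs exist -/
theorem exists_opt (hS : S1) [DecidableEq α] {k : ℕ} (hk : 0 < k) (R : α → α → Prop) (d : Fin k → Bool) :
    ∃ (w : α → ℝ) (τ : (Fin k → α) → ℝ), Opt R d w τ := by
  classical
  obtain ⟨y, u, h1, h2, h3, h4, h5⟩ := hS α {f : Fin k → α // PW R d f} (fun v f => mult v f.1)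
    (fun v f => Finset.sum_nonneg fun i _ => ind_nn _)
    (fun f => ⟨f.1 ⟨0, hk⟩, by
      unfold mult
      apply Finset.sum_pos' (fun i _ => ind_nn _)
      exact ⟨⟨0, hk⟩, mem_univ _, by rw [ind_t rfl]; norm_num⟩⟩)
  have hsum : ∀ g : (Fin k → α) → ℝ, ∑ f, (if h : PW R d f then u ⟨f, h⟩ else 0) * g f =
      ∑ f : {f : Fin k → α // PW R d f}, u f * g f.1 := by
    intro g
    rw [← Finset.sum_filter_add_sum_filter_not univ (fun f => PW R d f)]
    have e1 : ∑ f ∈ univ.filter (fun f => ¬ PW R d f), (if h : PW R d f then u ⟨f, h⟩ else 0) * g f = 0 := by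
      apply Finset.sum_eq_zero
      intro f hf
      rw [dif_neg (Finset.mem_filter.1 hf).2, zero_mul]
    rw [e1, add_zero, Finset.sum_subtype (p := fun f => PW R d f) _ (fun f => by simp)]
    apply Finset.sum_congr rfl
    rintro ⟨f, hf⟩ _
    rw [dif_pos hf]
  refine ⟨y, fun f => if h : PW R d f then u ⟨f, h⟩ else 0, h1, ?_, ?_, ?_, ?_, ?_⟩
  · intro f
    split_ifs with h
    · exact h2 _
    · exact le_refl _
  · intro f hf
    by_contra h
    rw [dif_neg h] at hf
    exact lt_irrefl _ hf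
  · intro f hf
    have := h3 ⟨f, hf⟩
    rw [sum_mult] at this
    exact this
  · intro v
    unfold load
    rw [hsum (fun f => mult v f)]
    exact h4 v
  · rw [h5]
    have := hsum (fun _ => 1)
    simp only [mul_one] at this
    exact this.symm

/-- the fractional claim follows from a bound for optimal pairs -/
theorem FC_of (hS : S1) {k : ℕ} (hk : 0 < k) (d : Fin k → Bool)
    (h : ∀ (α : Type) [Fintype α] [Nonempty α] [DecidableEq α] (R : α → α → Prop),
      (∀ a, (Fintype.card α : ℝ) ≤ 2 * cnt (fun b => R a b)) →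
      (∀ a, (Fintype.card α : ℝ) ≤ 2 * cnt (fun b => R b a)) →
      ∀ (w : α → ℝ) (τ : (Fin k → α) → ℝ), Opt R d w τ → (Fintype.card α : ℝ) ≤ k * ∑ f, τ f) :
    FC k d := by
  classical
  intro α _ _ R hR hR' y hy
  obtain ⟨w, τ, ho⟩ := exists_opt hS hk R d
  have hb := h α R (fun a => by rw [cnt_ncard]; exact_mod_cast hR a)
    (fun a => by rw [cnt_ncard]; exact_mod_cast hR' a) w τ ho
  by_contra hcon
  push Not at hcon
  have hN : (0 : ℝ) < (Fintype.card α : ℝ) := by exact_mod_cast Fintype.card_pos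
  have hk' : (0 : ℝ) < k := by exact_mod_cast hk
  have h1 : ∑ f, τ f * ((Fintype.card α : ℝ) * ∑ i, y (f i)) ≤ (Fintype.card α : ℝ) * ∑ a, y a := by
    have h2 : ∑ f, τ f * ((Fintype.card α : ℝ) * ∑ i, y (f i)) =
        (Fintype.card α : ℝ) * ∑ v, y v * load τ v := by
      rw [sum_load, Finset.mul_sum]
      apply Finset.sum_congr rfl
      intro f _
      ring
    rw [h2]
    apply mul_le_mul_of_nonneg_left _ hN.le
    apply Finset.sum_le_sum
    intro v _
    have := mul_le_mul_of_nonneg_left (ho.le_one v) (hy v)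
    linarith
  have hpos : 0 < ∑ f, τ f := by
    by_contra hneg
    push Not at hneg
    nlinarith
  obtain ⟨f0, -, hf0⟩ : ∃ f ∈ (univ : Finset (Fin k → α)), 0 < τ f := by
    by_contra hneg
    push Not at hneg
    have := Finset.sum_nonpos hneg
    linarith
  have h3 : ∑ f, τ f * (k * ∑ a, y a) < ∑ f, τ f * ((Fintype.card α : ℝ) * ∑ i, y (f i)) := by
    apply Finset.sum_lt_sum
    · intro f _
      rcases (ho.t_nn f).lt_or_eq with h4 | h4
      · exact mul_le_mul_of_nonneg_left (hcon f (ho.supp f h4)).le h4.le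
      · rw [← h4, zero_mul, zero_mul]
    · exact ⟨f0, mem_univ _, mul_lt_mul_of_pos_left (hcon f0 (ho.supp f0 hf0)) hf0⟩
  rw [← Finset.sum_mul] at h3
  have hy0 : 0 ≤ ∑ a, y a := Finset.sum_nonneg fun a _ => hy a
  have h5 : (Fintype.card α : ℝ) * ∑ a, y a ≤ (k * ∑ f, τ f) * ∑ a, y a :=
    mul_le_mul_of_nonneg_right hb hy0
  have h6 : (∑ f, τ f) * (k * ∑ a, y a) = (k * ∑ f, τ f) * ∑ a, y a := by ring
  linarith

end Pool.Agent.W163.CF
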