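import Mathlib
import Pool.Agent.W163.CF.LemZ

/-!
# Bounds for a single tile (directed 4-cycle)
-/

set_option autoImplicit false

namespace Pool.Agent.W163.CF

theorem ci_le (a : ℝ) (p q : Prop) : ind (a ≠ 0) * (ind p + ind q) ≤ 2 * (1 - ind (a = 0)) := by
  by_cases h : a = 0
  · rw [ind_f (p := a ≠ 0) (fun h' => h' h), ind_t h]; norm_num
  · rw [ind_t (p := a ≠ 0) h, ind_f h]
    have := ind_le p
    have := ind_le q
    linarith

theorem ci_le' (a : ℝ) (p q : Prop) : ind (a ≠ 0) * (ind p + ind q) ≤ ind p + ind q := by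
  by_cases h : a = 0
  · rw [ind_f (p := a ≠ 0) (fun h' => h' h)]
    have := ind_nn p
    have := ind_nn q
    linarith
  · rw [ind_t (p := a ≠ 0) h, one_mul]

theorem pair_le {p q : Prop} (h : ¬ (p ∧ q)) : ind p + ind q ≤ 1 := by
  by_cases hp : p
  · rw [ind_f (p := q) (fun hq => h ⟨hp, hq⟩)]
    have := ind_le p
    linarith
  · rw [ind_f hp]
    have := ind_le q
    linarith

/-- tile bound for a 2-walk -/
theorem tileA (w0 w1 w2 w3 : ℝ) (h0 : 0 ≤ w0) (h1 : 0 ≤ w1) (h2 : 0 ≤ w2) (h3 : 0 ≤ w3)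
    (hs : w0 + w1 + w2 + w3 = 1) (p0 p1 p2 p3 q0 q1 q2 q3 : Prop)
    (k0 : p0 → q0 → 1 ≤ w0) (k1 : p1 → q1 → 1 ≤ w1) (k2 : p2 → q2 → 1 ≤ w2) (k3 : p3 → q3 → 1 ≤ w3) :
    ind (w0 ≠ 0) * (ind p0 + ind q0) + ind (w1 ≠ 0) * (ind p1 + ind q1) +
      ind (w2 ≠ 0) * (ind p2 + ind q2) + ind (w3 ≠ 0) * (ind p3 + ind q3) ≤
    4 - (ind (w0 = 0) + ind (w1 = 0) + ind (w2 = 0) + ind (w3 = 0)) +
      ind (ind (w0 = 0) + ind (w1 = 0) + ind (w2 = 0) + ind (w3 = 0) = 3) := by
  have key : ∀ (a : ℝ) (p q : Prop), (p → q → 1 ≤ a) →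
      ind (a ≠ 0) * (ind p + ind q) ≤ (1 - ind (a = 0)) + ind (1 ≤ a) := by
    intro a p q h
    by_cases ha : a = 0
    · rw [ind_f (p := a ≠ 0) (fun h' => h' ha), ind_t ha]
      have := ind_nn (1 ≤ a)
      linarith
    · rw [ind_t (p := a ≠ 0) ha, ind_f ha]
      by_cases hpq : p ∧ q
      · rw [ind_t (h hpq.1 hpq.2)]
        have := ind_le p
        have := ind_le q
        linarith
      · have := pair_le hpq
        have := ind_nn (1 ≤ a)
        linarith
  have e0 := key w0 p0 q0 k0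
  have e1 := key w1 p1 q1 k1
  have e2 := key w2 p2 q2 k2
  have e3 := key w3 p3 q3 k3
  have hfin : ind (1 ≤ w0) + ind (1 ≤ w1) + ind (1 ≤ w2) + ind (1 ≤ w3) ≤
      ind (ind (w0 = 0) + ind (w1 = 0) + ind (w2 = 0) + ind (w3 = 0) = 3) := by
    by_cases c0 : 1 ≤ w0
    · have z1 : w1 = 0 := by linarith
      have z2 : w2 = 0 := by linarith
      have z3 : w3 = 0 := by linarith
      have z0 : w0 ≠ 0 := by linarith
      rw [ind_t c0, ind_f (p := 1 ≤ w1) (by linarith), ind_f (p := 1 ≤ w2) (by linarith),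
        ind_f (p := 1 ≤ w3) (by linarith), ind_f z0, ind_t z1, ind_t z2, ind_t z3, ind_t (by norm_num)]
      norm_num
    · by_cases c1 : 1 ≤ w1
      · have z0 : w0 = 0 := by linarith
        have z2 : w2 = 0 := by linarith
        have z3 : w3 = 0 := by linarith
        have z1 : w1 ≠ 0 := by linarith
        rw [ind_t c1, ind_f (p := 1 ≤ w0) c0, ind_f (p := 1 ≤ w2) (by linarith),
          ind_f (p := 1 ≤ w3) (by linarith), ind_f z1, ind_t z0, ind_t z2, ind_t z3, ind_t (by norm_num)]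
        norm_num
      · by_cases c2 : 1 ≤ w2
        · have z0 : w0 = 0 := by linarith
          have z1 : w1 = 0 := by linarith
          have z3 : w3 = 0 := by linarith
          have z2 : w2 ≠ 0 := by linarith
          rw [ind_t c2, ind_f (p := 1 ≤ w0) c0, ind_f (p := 1 ≤ w1) c1,
            ind_f (p := 1 ≤ w3) (by linarith), ind_f z2, ind_t z0, ind_t z1, ind_t z3, ind_t (by norm_num)]
          norm_num
        · by_cases c3 : 1 ≤ w3
          · have z0 : w0 = 0 := by linarith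
            have z1 : w1 = 0 := by linarith
            have z2 : w2 = 0 := by linarith
            have z3 : w3 ≠ 0 := by linarith
            rw [ind_t c3, ind_f (p := 1 ≤ w0) c0, ind_f (p := 1 ≤ w1) c1,
              ind_f (p := 1 ≤ w2) c2, ind_f z3, ind_t z0, ind_t z1, ind_t z2, ind_t (by norm_num)]
            norm_num
          · rw [ind_f c0, ind_f c1, ind_f c2, ind_f c3]
            have := ind_nn (ind (w0 = 0) + ind (w1 = 0) + ind (w2 = 0) + ind (w3 = 0) = 3)
            linarith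
  linarith

/-- tile bound for an arc -/
theorem tileB (w0 w1 w2 w3 : ℝ) (h0 : 0 ≤ w0) (h1 : 0 ≤ w1) (h2 : 0 ≤ w2) (h3 : 0 ≤ w3)
    (hs : w0 + w1 + w2 + w3 = 1) (p0 p1 p2 p3 q0 q1 q2 q3 : Prop)
    (k0 : p0 → q1 → 1 ≤ w0 + w1) (k1 : p1 → q2 → 1 ≤ w1 + w2) (k2 : p2 → q3 → 1 ≤ w2 + w3)
    (k3 : p3 → q0 → 1 ≤ w3 + w0) :
    ind (w0 ≠ 0) * (ind p0 + ind q0) + ind (w1 ≠ 0) * (ind p1 + ind q1) +
      ind (w2 ≠ 0) * (ind p2 + ind q2) + ind (w3 ≠ 0) * (ind p3 + ind q3) ≤ 4 := by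
  have a0 := ci_le w0 p0 q0
  have a1 := ci_le w1 p1 q1
  have a2 := ci_le w2 p2 q2
  have a3 := ci_le w3 p3 q3
  have n0 := ind_nn (w0 = 0)
  have n1 := ind_nn (w1 = 0)
  have n2 := ind_nn (w2 = 0)
  have n3 := ind_nn (w3 = 0)
  by_cases c0 : p0 ∧ q1
  · have e := k0 c0.1 c0.2
    have z2 : w2 = 0 := by linarith
    have z3 : w3 = 0 := by linarith
    rw [ind_t z2] at a2
    rw [ind_t z3] at a3
    linarith
  · by_cases c1 : p1 ∧ q2
    · have e := k1 c1.1 c1.2
      have z3 : w3 = 0 := by linarith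
      have z0 : w0 = 0 := by linarith
      rw [ind_t z3] at a3
      rw [ind_t z0] at a0
      linarith
    · by_cases c2 : p2 ∧ q3
      · have e := k2 c2.1 c2.2
        have z0 : w0 = 0 := by linarith
        have z1 : w1 = 0 := by linarith
        rw [ind_t z0] at a0
        rw [ind_t z1] at a1
        linarith
      · by_cases c3 : p3 ∧ q0
        · have e := k3 c3.1 c3.2
          have z1 : w1 = 0 := by linarith
          have z2 : w2 = 0 := by linarith
          rw [ind_t z1] at a1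
          rw [ind_t z2] at a2
          linarith
        · have b0 := ci_le' w0 p0 q0
          have b1 := ci_le' w1 p1 q1
          have b2 := ci_le' w2 p2 q2
          have b3 := ci_le' w3 p3 q3
          have d0 := pair_le c0
          have d1 := pair_le c1
          have d2 := pair_le c2
          have d3 := pair_le c3
          linarith

/-- one zero position -/
theorem tileC_one (w1 w2 w3 : ℝ) (h1 : 0 < w1) (h2 : 0 < w2) (h3 : 0 < w3)
    (hs : w1 + w2 + w3 = 1) (p1 p2 p3 q1 q2 q3 : Prop)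
    (k2 : p3 → q1 → w2 = 0)
    (m1 : p1 → q1 → 1 / 2 ≤ w1) (m2 : p2 → q2 → 1 / 2 ≤ w2)
    (m3 : p3 → q3 → 1 / 2 ≤ w3) :
    (ind p1 + ind q1) + (ind p2 + ind q2) + (ind p3 + ind q3) ≤ 4 := by
  have u1 := ind_le p1
  have u2 := ind_le p2
  have u3 := ind_le p3
  have v1 := ind_le q1
  have v2 := ind_le q2
  have v3 := ind_le q3
  have c : ind q1 + ind p3 ≤ 1 := by
    have := pair_le (p := p3) (q := q1) (fun h => by
      have := k2 h.1 h.2
      linarith)
    linarith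
  by_cases e2 : p2 ∧ q2
  · have f2 := m2 e2.1 e2.2
    have c1 : ind p1 + ind q1 ≤ 1 := pair_le (fun h => by
      have := m1 h.1 h.2
      linarith)
    have c3 : ind p3 + ind q3 ≤ 1 := pair_le (fun h => by
      have := m3 h.1 h.2
      linarith)
    linarith
  · have c2 := pair_le e2
    linarith

/-- tile bound for a single vertex -/
theorem tileC (w0 w1 w2 w3 : ℝ) (h0 : 0 ≤ w0) (h1 : 0 ≤ w1) (h2 : 0 ≤ w2) (h3 : 0 ≤ w3)
    (hs : w0 + w1 + w2 + w3 = 1) (p0 p1 p2 p3 q0 q1 q2 q3 : Prop)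
    (k0 : p1 → q3 → w0 = 0) (k1 : p2 → q0 → w1 = 0) (k2 : p3 → q1 → w2 = 0) (k3 : p0 → q2 → w3 = 0)
    (m0 : p0 → q0 → 1 / 2 ≤ w0) (m1 : p1 → q1 → 1 / 2 ≤ w1) (m2 : p2 → q2 → 1 / 2 ≤ w2)
    (m3 : p3 → q3 → 1 / 2 ≤ w3) :
    ind (w0 ≠ 0) * (ind p0 + ind q0) + ind (w1 ≠ 0) * (ind p1 + ind q1) +
      ind (w2 ≠ 0) * (ind p2 + ind q2) + ind (w3 ≠ 0) * (ind p3 + ind q3) ≤ 4 := by
  have a0 := ci_le w0 p0 q0
  have a1 := ci_le w1 p1 q1
  have a2 := ci_le w2 p2 q2
  have a3 := ci_le w3 p3 q3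
  have n0 := ind_nn (w0 = 0)
  have n1 := ind_nn (w1 = 0)
  have n2 := ind_nn (w2 = 0)
  have n3 := ind_nn (w3 = 0)
  have b0 := ci_le' w0 p0 q0
  have b1 := ci_le' w1 p1 q1
  have b2 := ci_le' w2 p2 q2
  have b3 := ci_le' w3 p3 q3
  by_cases z0 : w0 = 0
  · by_cases z1 : w1 = 0
    · rw [ind_t z0] at a0
      rw [ind_t z1] at a1
      linarith
    · by_cases z2 : w2 = 0
      · rw [ind_t z0] at a0
        rw [ind_t z2] at a2
        linarith
      · by_cases z3 : w3 = 0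
        · rw [ind_t z0] at a0
          rw [ind_t z3] at a3
          linarith
        · have := tileC_one w1 w2 w3 (lt_of_le_of_ne h1 (Ne.symm z1)) (lt_of_le_of_ne h2 (Ne.symm z2))
            (lt_of_le_of_ne h3 (Ne.symm z3)) (by linarith) p1 p2 p3 q1 q2 q3 k2 m1 m2 m3
          rw [ind_t z0] at a0
          linarith
  · by_cases z1 : w1 = 0
    · by_cases z2 : w2 = 0
      · rw [ind_t z1] at a1
        rw [ind_t z2] at a2
        linarith
      · by_cases z3 : w3 = 0
        · rw [ind_t z1] at a1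
          rw [ind_t z3] at a3
          linarith
        · have := tileC_one w2 w3 w0 (lt_of_le_of_ne h2 (Ne.symm z2)) (lt_of_le_of_ne h3 (Ne.symm z3))
            (lt_of_le_of_ne h0 (Ne.symm z0)) (by linarith) p2 p3 p0 q2 q3 q0 k3 m2 m3 m0
          rw [ind_t z1] at a1
          linarith
    · by_cases z2 : w2 = 0
      · by_cases z3 : w3 = 0
        · rw [ind_t z2] at a2
          rw [ind_t z3] at a3
          linarith
        · have := tileC_one w3 w0 w1 (lt_of_le_of_ne h3 (Ne.symm z3)) (lt_of_le_of_ne h0 (Ne.symm z0))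
            (lt_of_le_of_ne h1 (Ne.symm z1)) (by linarith) p3 p0 p1 q3 q0 q1 k0 m3 m0 m1
          rw [ind_t z2] at a2
          linarith
      · by_cases z3 : w3 = 0
        · have := tileC_one w0 w1 w2 (lt_of_le_of_ne h0 (Ne.symm z0)) (lt_of_le_of_ne h1 (Ne.symm z1))
            (lt_of_le_of_ne h2 (Ne.symm z2)) (by linarith) p0 p1 p2 q0 q1 q2 k1 m0 m1 m2
          rw [ind_t z3] at a3
          linarith
        · have c0 := pair_le (p := p1) (q := q3) (fun h => z0 (k0 h.1 h.2))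
          have c1 := pair_le (p := p2) (q := q0) (fun h => z1 (k1 h.1 h.2))
          have c2 := pair_le (p := p3) (q := q1) (fun h => z2 (k2 h.1 h.2))
          have c3 := pair_le (p := p0) (q := q2) (fun h => z3 (k3 h.1 h.2))
          linarith

end Pool.Agent.W163.CF
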