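import Mathlib
import Pool.Agent.W163.CF.Opt
import Pool.Agent.W163.CF.Tile4

/-!
# The fractional claim for the directed 4-cycle
-/

set_option autoImplicit false

namespace Pool.Agent.W163.CF

open Finset

variable {α : Type} [Fintype α]

theorem cnt_sub (p : α → Prop) [Fintype {v // p v}] (P : α → Prop) :
    cnt (fun v : {v // p v} => P v.1) = cnt (fun v : α => p v ∧ P v) := by
  classical
  unfold cnt
  have h1 : ∑ v : α, ind (p v ∧ P v) = ∑ v ∈ univ.filter (fun v => p v), ind (P v) := by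
    rw [Finset.sum_filter]
    apply Finset.sum_congr rfl
    intro v _
    by_cases h : p v
    · rw [if_pos h]
      by_cases h' : P v
      · rw [ind_t h', ind_t (p := p v ∧ P v) ⟨h, h'⟩]
      · rw [ind_f h', ind_f (p := p v ∧ P v) (fun h'' => h' h''.2)]
    · rw [if_neg h, ind_f (p := p v ∧ P v) (fun h'' => h h''.1)]
  rw [h1, Finset.sum_subtype (p := fun v => p v) _ (fun v => by simp)]

theorem card_sub (p : α → Prop) [Fintype {v // p v}] :
    (Fintype.card {v // p v} : ℝ) = cnt p := by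
  have h := cnt_sub p (fun _ => True)
  rw [cnt_true] at h
  rw [h]
  congr 1
  ext v
  simp

variable [DecidableEq α] {k : ℕ} {R : α → α → Prop} {d : Fin k → Bool} {w : α → ℝ}
  {τ : (Fin k → α) → ℝ}

/-- number of zero positions -/
noncomputable def nz (w : α → ℝ) (f : Fin k → α) : ℝ := ∑ i, ind (w (f i) = 0)

/-- total slack -/
theorem slack_total (τ : (Fin k → α) → ℝ) :
    ∑ v, (1 - load τ v) = (Fintype.card α : ℝ) - k * ∑ f, τ f := by
  have h := sum_load (fun _ : α => (1 : ℝ)) τ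
  simp only [one_mul, Finset.sum_const, Finset.card_univ, Fintype.card_fin, nsmul_eq_mul, mul_one] at h
  rw [Finset.sum_sub_distrib, h, Finset.sum_const, nsmul_eq_mul, mul_one, Finset.card_univ,
    ← Finset.sum_mul]
  ring

namespace Opt

theorem cnt_zero_set (h : Opt R d w τ) :
    cnt (fun v => w v = 0) = ((Fintype.card α : ℝ) - k * ∑ f, τ f) + ∑ f, τ f * nz w f := by
  rw [← slack_total τ]
  unfold nz
  rw [← sum_load (fun v => ind (w v = 0)) τ, ← Finset.sum_add_distrib]
  unfold cnt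
  apply Finset.sum_congr rfl
  intro v _
  by_cases hv : w v = 0
  · rw [ind_t hv]; ring
  · rw [ind_f hv, h.tight1 v hv]; ring

/-- the basic degree estimate inside the zero set -/
theorem deg_est (h : Opt R d w τ) (P Q : α → Prop)
    (hPQ : (Fintype.card α : ℝ) ≤ cnt P + cnt Q) (B : (Fin k → α) → ℝ)
    (hB : ∀ f, 0 < τ f → ∑ i, (ind (w (f i) ≠ 0) * (ind (P (f i)) + ind (Q (f i)))) ≤ B f) :
    (Fintype.card α : ℝ) - ∑ f, τ f * B f ≤
      cnt (fun v => w v = 0 ∧ P v) + cnt (fun v => w v = 0 ∧ Q v) := by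
  have h1 : cnt P + cnt Q = (cnt (fun v => w v = 0 ∧ P v) + cnt (fun v => w v = 0 ∧ Q v)) +
      ∑ v, (ind (w v ≠ 0) * (ind (P v) + ind (Q v))) * load τ v := by
    unfold cnt
    rw [← Finset.sum_add_distrib, ← Finset.sum_add_distrib, ← Finset.sum_add_distrib]
    apply Finset.sum_congr rfl
    intro v _
    by_cases hv : w v = 0
    · rw [ind_f (p := w v ≠ 0) (fun h' => h' hv)]
      by_cases h2 : P v
      · rw [ind_t h2, ind_t (p := w v = 0 ∧ P v) ⟨hv, h2⟩]
        by_cases h3 : Q v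
        · rw [ind_t h3, ind_t (p := w v = 0 ∧ Q v) ⟨hv, h3⟩]; ring
        · rw [ind_f h3, ind_f (p := w v = 0 ∧ Q v) (fun h' => h3 h'.2)]; ring
      · rw [ind_f h2, ind_f (p := w v = 0 ∧ P v) (fun h' => h2 h'.2)]
        by_cases h3 : Q v
        · rw [ind_t h3, ind_t (p := w v = 0 ∧ Q v) ⟨hv, h3⟩]; ring
        · rw [ind_f h3, ind_f (p := w v = 0 ∧ Q v) (fun h' => h3 h'.2)]; ring
    · rw [ind_t (p := w v ≠ 0) hv, h.tight1 v hv,
        ind_f (p := w v = 0 ∧ P v) (fun h' => hv h'.1), ind_f (p := w v = 0 ∧ Q v) (fun h' => hv h'.1)]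
      ring
  rw [sum_load (fun v => ind (w v ≠ 0) * (ind (P v) + ind (Q v))) τ] at h1
  have h2 : ∑ f, τ f * ∑ i, (ind (w (f i) ≠ 0) * (ind (P (f i)) + ind (Q (f i)))) ≤ ∑ f, τ f * B f := by
    apply Finset.sum_le_sum
    intro f _
    rcases (h.t_nn f).lt_or_eq with h3 | h3
    · exact mul_le_mul_of_nonneg_left (hB f h3) h3.le
    · rw [← h3, zero_mul, zero_mul]
  linarith

end Opt

/-- closed 4-walks as patterns -/
theorem PW4 {β : Type} {R : β → β → Prop} {a b c e : β} (h1 : R a b) (h2 : R b c) (h3 : R c e) (h4 : R e a) :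
    PW R (fun _ : Fin 4 => true) ![a, b, c, e] := by
  intro i j hij
  refine ⟨fun _ => ?_, fun h => by simp at h⟩
  fin_cases i <;> fin_cases j <;> simp at hij ⊢ <;> assumption

theorem PW4_arc {β : Type} {R : β → β → Prop} {f : Fin 4 → β} (h : PW R (fun _ : Fin 4 => true) f) :
    R (f 0) (f 1) ∧ R (f 1) (f 2) ∧ R (f 2) (f 3) ∧ R (f 3) (f 0) :=
  ⟨(h 0 1 rfl).1 rfl, (h 1 2 rfl).1 rfl, (h 2 3 rfl).1 rfl, (h 3 0 rfl).1 rfl⟩

/-- the fractional claim for the directed 4-cycle, for optimal pairs -/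
theorem C4_opt [Nonempty α] (R : α → α → Prop)
    (hR : ∀ a, (Fintype.card α : ℝ) ≤ 2 * cnt (fun b => R a b))
    (hR' : ∀ a, (Fintype.card α : ℝ) ≤ 2 * cnt (fun b => R b a))
    (w : α → ℝ) (τ : (Fin 4 → α) → ℝ) (ho : Opt R (fun _ => true) w τ) :
    (Fintype.card α : ℝ) ≤ (4 : ℕ) * ∑ f, τ f := by
  classical
  by_contra hcon
  push Not at hcon
  have hc : ∀ a b c e, R a b → R b c → R c e → R e a → 1 ≤ w a + w b + w c + w e := by
    intro a b c e h1 h2 h3 h4
    have := ho.cover _ (PW4 h1 h2 h3 h4)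
    simpa [Fin.sum_univ_four] using this
  have hdeg : ∀ x y, (Fintype.card α : ℝ) ≤ cnt (fun v => R x v) + cnt (fun v => R v y) := by
    intro x y
    have h1 := hR x
    have h2 := hR' y
    linarith
  have wn := ho.w_nn
  -- facts about a tile
  have tile : ∀ f, 0 < τ f → (w (f 0) + w (f 1) + w (f 2) + w (f 3) = 1 ∧
      R (f 0) (f 1) ∧ R (f 1) (f 2) ∧ R (f 2) (f 3) ∧ R (f 3) (f 0)) := by
    intro f hf
    have h1 := ho.tight2 f hf
    rw [Fin.sum_univ_four] at h1
    exact ⟨h1, PW4_arc (ho.supp f hf)⟩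
  have hN4 : ∑ f, τ f * (4 : ℝ) = 4 * ∑ f, τ f := by
    rw [← Finset.sum_mul]; ring
  -- (0) every vertex of the zero set has an arc inside
  have st0 : ∀ x, w x = 0 → 0 < cnt (fun v => w v = 0 ∧ R x v) + cnt (fun v => w v = 0 ∧ R v x) := by
    intro x hx
    have h1 := ho.deg_est (fun v => R x v) (fun v => R v x) (hdeg x x) (fun _ => 4) (by
      intro f hf
      obtain ⟨hs, r0, r1, r2, r3⟩ := tile f hf
      rw [Fin.sum_univ_four]
      refine tileC _ _ _ _ (wn _) (wn _) (wn _) (wn _) hs (R x (f 0)) (R x (f 1)) (R x (f 2)) (R x (f 3))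
        (R (f 0) x) (R (f 1) x) (R (f 2) x) (R (f 3) x) ?_ ?_ ?_ ?_ ?_ ?_ ?_ ?_
      · intro a b
        have := hc x (f 1) (f 2) (f 3) a r1 r2 b
        linarith [wn (f 0)]
      · intro a b
        have := hc x (f 2) (f 3) (f 0) a r2 r3 b
        linarith [wn (f 1)]
      · intro a b
        have := hc x (f 3) (f 0) (f 1) a r3 r0 b
        linarith [wn (f 2)]
      · intro a b
        have := hc x (f 0) (f 1) (f 2) a r0 r1 b
        linarith [wn (f 3)]
      · intro a b
        have := hc x (f 0) x (f 0) a b a b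
        linarith
      · intro a b
        have := hc x (f 1) x (f 1) a b a b
        linarith
      · intro a b
        have := hc x (f 2) x (f 2) a b a b
        linarith
      · intro a b
        have := hc x (f 3) x (f 3) a b a b
        linarith)
    rw [hN4] at h1
    push_cast at hcon
    linarith
  -- (1) arcs of the zero set extend
  have st1 : ∀ x y, w x = 0 → w y = 0 → R y x →
      0 < cnt (fun v => w v = 0 ∧ R x v) + cnt (fun v => w v = 0 ∧ R v y) := by
    intro x y hx hy hyx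
    have h1 := ho.deg_est (fun v => R x v) (fun v => R v y) (hdeg x y) (fun _ => 4) (by
      intro f hf
      obtain ⟨hs, r0, r1, r2, r3⟩ := tile f hf
      rw [Fin.sum_univ_four]
      refine tileB _ _ _ _ (wn _) (wn _) (wn _) (wn _) hs (R x (f 0)) (R x (f 1)) (R x (f 2)) (R x (f 3))
        (R (f 0) y) (R (f 1) y) (R (f 2) y) (R (f 3) y) ?_ ?_ ?_ ?_
      · intro a b
        have := hc x (f 0) (f 1) y a r0 b hyx
        linarith
      · intro a b
        have := hc x (f 1) (f 2) y a r1 b hyx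
        linarith
      · intro a b
        have := hc x (f 2) (f 3) y a r2 b hyx
        linarith
      · intro a b
        have := hc x (f 3) (f 0) y a r3 b hyx
        linarith)
    rw [hN4] at h1
    push_cast at hcon
    linarith
  -- (2) 2-walks
  have st2 : ∀ x y z, w x = 0 → w y = 0 → w z = 0 → R y z → R z x →
      cnt (fun v => w v = 0) - ∑ f, τ f * ind (nz w f = 3) ≤
        cnt (fun v => w v = 0 ∧ R x v) + cnt (fun v => w v = 0 ∧ R v y) := by
    intro x y z hx hy hz hyz hzx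
    have h1 := ho.deg_est (fun v => R x v) (fun v => R v y) (hdeg x y)
      (fun f => 4 - nz w f + ind (nz w f = 3)) (by
      intro f hf
      obtain ⟨hs, r0, r1, r2, r3⟩ := tile f hf
      unfold nz
      rw [Fin.sum_univ_four, Fin.sum_univ_four]
      refine tileA _ _ _ _ (wn _) (wn _) (wn _) (wn _) hs (R x (f 0)) (R x (f 1)) (R x (f 2)) (R x (f 3))
        (R (f 0) y) (R (f 1) y) (R (f 2) y) (R (f 3) y) ?_ ?_ ?_ ?_
      · intro a b
        have := hc x (f 0) y z a b hyz hzx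
        linarith
      · intro a b
        have := hc x (f 1) y z a b hyz hzx
        linarith
      · intro a b
        have := hc x (f 2) y z a b hyz hzx
        linarith
      · intro a b
        have := hc x (f 3) y z a b hyz hzx
        linarith)
    have h2 := ho.cnt_zero_set
    have h3 : ∑ f, τ f * (4 - nz w f + ind (nz w f = 3)) =
        4 * ∑ f, τ f - ∑ f, τ f * nz w f + ∑ f, τ f * ind (nz w f = 3) := by
      rw [← hN4, ← Finset.sum_sub_distrib, ← Finset.sum_add_distrib]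
      apply Finset.sum_congr rfl
      intro f _
      ring
    push_cast at hcon h2
    linarith
  -- the zero set is nonempty
  have hZ : ∃ v, w v = 0 := by
    by_contra hne
    push Not at hne
    have h1 : ∑ v, (1 - load τ v) = 0 := Finset.sum_eq_zero fun v _ => by
      rw [ho.tight1 v (hne v)]; ring
    rw [slack_total] at h1
    linarith
  obtain ⟨x0, hx0⟩ := hZ
  -- an arc in the zero set
  have harc : ∃ x y, w x = 0 ∧ w y = 0 ∧ R y x := by
    have h1 := st0 x0 hx0
    by_cases h2 : ∃ v, w v = 0 ∧ R x0 v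
    · obtain ⟨v, hv, hr⟩ := h2
      exact ⟨v, x0, hv, hx0, hr⟩
    · have h3 : cnt (fun v => w v = 0 ∧ R x0 v) = 0 := cnt_zero fun v hv => h2 ⟨v, hv⟩
      rw [h3, zero_add] at h1
      obtain ⟨v, hv, hr⟩ := cnt_pos.1 h1
      exact ⟨x0, v, hx0, hv, hr⟩
  obtain ⟨x1, y1, hx1, hy1, hyx1⟩ := harc
  have hwalk : ∃ y z x, w y = 0 ∧ w z = 0 ∧ w x = 0 ∧ R y z ∧ R z x := by
    have h1 := st1 x1 y1 hx1 hy1 hyx1
    by_cases h2 : ∃ v, w v = 0 ∧ R x1 v
    · obtain ⟨v, hv, hr⟩ := h2
      exact ⟨y1, x1, v, hy1, hx1, hv, hyx1, hr⟩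
    · have h3 : cnt (fun v => w v = 0 ∧ R x1 v) = 0 := cnt_zero fun v hv => h2 ⟨v, hv⟩
      rw [h3, zero_add] at h1
      obtain ⟨v, hv, hr⟩ := cnt_pos.1 h1
      exact ⟨v, y1, x1, hv, hy1, hx1, hr, hyx1⟩
  obtain ⟨y2, z2, x2, hy2, hz2, hx2, hyz2, hzx2⟩ := hwalk
  have hfin := lemmaZ (V := {v // w v = 0}) (fun a b => R a.1 b.1)
    (by
      rintro ⟨a, ha⟩ ⟨b, hb⟩ ⟨c, hc'⟩ ⟨e, he⟩ h1 h2 h3 h4
      have := hc a b c e h1 h2 h3 h4
      linarith)
    (∑ f, τ f * ind (nz w f = 3))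
    ⟨⟨y2, hy2⟩, ⟨z2, hz2⟩, ⟨x2, hx2⟩, hyz2, hzx2⟩
    (by
      rintro ⟨y, hy⟩ ⟨z, hz⟩ ⟨x, hx⟩ hyz hzx
      have h1 := st2 x y z hx hy hz hyz hzx
      rw [card_sub]
      have e1 := cnt_sub (fun v => w v = 0) (fun v => R x v)
      have e2 := cnt_sub (fun v => w v = 0) (fun v => R v y)
      rw [← e1, ← e2] at h1
      exact h1)
  rw [card_sub, ho.cnt_zero_set] at hfin
  have h5 : 3 * ∑ f, τ f * ind (nz w f = 3) ≤ ∑ f, τ f * nz w f := by
    rw [Finset.mul_sum]
    apply Finset.sum_le_sum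
    intro f _
    by_cases h : nz w f = 3
    · rw [ind_t h, h]; linarith
    · rw [ind_f h, mul_zero, mul_zero]
      exact mul_nonneg (ho.t_nn f) (Finset.sum_nonneg fun i _ => ind_nn _)
  linarith

/-- **The fractional claim for the directed 4-cycle.** -/
theorem FC4 (hS : S1) : FC 4 (fun _ => true) :=
  FC_of hS (by norm_num) _ fun α _ _ _ R hR hR' w τ ho => C4_opt R hR hR' w τ ho

end Pool.Agent.W163.CF
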