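import Mathlib
import Pool.Agent.W163.CF.C4

/-!
# Patterns whose net length is a multiple of `t` reduce to the directed `t`-cycle
-/

set_option autoImplicit false

namespace Pool.Agent.W163.CF

open Finset

/-- sign of a direction -/
def sgn (b : Bool) : ℤ := if b then 1 else -1

/-- height after `n` steps -/
def ht {k : ℕ} (d : Fin k → Bool) (n : ℕ) : ℤ := ∑ i : Fin k, if i.val < n then sgn (d i) else 0

theorem ht_zero {k : ℕ} (d : Fin k → Bool) : ht d 0 = 0 := by
  unfold ht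
  apply Finset.sum_eq_zero
  intro i _
  simp

theorem ht_succ {k : ℕ} (d : Fin k → Bool) (i : Fin k) : ht d (i.val + 1) = ht d i.val + sgn (d i) := by
  unfold ht
  have h1 : ∀ j : Fin k, (if j.val < i.val + 1 then sgn (d j) else 0) =
      (if j.val < i.val then sgn (d j) else 0) + (if j = i then sgn (d i) else 0) := by
    intro j
    by_cases h : j = i
    · subst h
      simp
    · have h2 : j.val ≠ i.val := fun h' => h (Fin.ext h')
      by_cases h3 : j.val < i.val
      · rw [if_pos h3, if_pos (by omega), if_neg h]; ring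
      · rw [if_neg h3, if_neg (by omega), if_neg h]; ring
  rw [Finset.sum_congr rfl (fun j _ => h1 j), Finset.sum_add_distrib, Finset.sum_ite_eq' univ i]
  simp

theorem ht_last {k : ℕ} (d : Fin k → Bool) : ht d k = ∑ i, sgn (d i) := by
  unfold ht
  apply Finset.sum_congr rfl
  intro i _
  rw [if_pos i.isLt]

/-- the residue as an element of `Fin t` -/
def rs (t : ℕ) (ht : 0 < t) (z : ℤ) : Fin t :=
  ⟨(z % (t : ℤ)).toNat, by
    have h1 : 0 ≤ z % (t : ℤ) := Int.emod_nonneg _ (by omega)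
    have h2 : z % (t : ℤ) < t := Int.emod_lt_of_pos _ (by omega)
    omega⟩

theorem rs_val (t : ℕ) (ht : 0 < t) (z : ℤ) : ((rs t ht z).val : ℤ) = z % (t : ℤ) := by
  unfold rs
  have h1 : 0 ≤ z % (t : ℤ) := Int.emod_nonneg _ (by omega)
  simp [Int.toNat_of_nonneg h1]

theorem rs_congr (t : ℕ) (ht : 0 < t) (z z' : ℤ) (h : (t : ℤ) ∣ z - z') : rs t ht z = rs t ht z' := by
  apply Fin.ext
  have h1 := rs_val t ht z
  have h2 := rs_val t ht z'
  have h3 : z % (t : ℤ) = z' % (t : ℤ) := Int.emod_eq_emod_iff_emod_sub_eq_zero.2 (Int.emod_eq_zero_of_dvd h)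
  omega

theorem rs_succ (t : ℕ) (ht : 0 < t) (z : ℤ) : (rs t ht (z + 1)).val = ((rs t ht z).val + 1) % t := by
  have h1 := rs_val t ht z
  have h2 := rs_val t ht (z + 1)
  have h3 : (((rs t ht z).val + 1) % t : ℕ) = (((rs t ht z).val + 1 : ℕ) : ℤ) % (t : ℤ) := by push_cast; rfl
  have h4 : (((rs t ht z).val + 1 : ℕ) : ℤ) % (t : ℤ) = (z + 1) % (t : ℤ) := by
    push_cast
    rw [h1, Int.emod_add_emod]
  have h5 : ((rs t ht (z + 1)).val : ℤ) = ((((rs t ht z).val + 1) % t : ℕ) : ℤ) := by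
    rw [h2, h3, h4]
  exact_mod_cast h5

theorem sum_rs (t : ℕ) (ht : 0 < t) (z : ℤ) (g : Fin t → ℝ) :
    ∑ s : Fin t, g (rs t ht (z + (s.val : ℤ))) = ∑ j, g j := by
  apply Function.Bijective.sum_comp (e := fun s : Fin t => rs t ht (z + (s.val : ℤ)))
  rw [← Finite.injective_iff_bijective]
  intro a b hab
  have h1 : rs t ht (z + (a.val : ℤ)) = rs t ht (z + (b.val : ℤ)) := hab
  have h2 := rs_val t ht (z + (a.val : ℤ))
  have h3 := rs_val t ht (z + (b.val : ℤ))
  rw [h1, h3] at h2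
  have h4 : (t : ℤ) ∣ (z + (b.val : ℤ)) - (z + (a.val : ℤ)) :=
    Int.ModEq.dvd (show (z + (a.val : ℤ)) % t = (z + (b.val : ℤ)) % t from h2.symm)
  apply Fin.ext
  have h5 : (t : ℤ) ∣ (b.val : ℤ) - (a.val : ℤ) := by
    have : (z + (b.val : ℤ)) - (z + (a.val : ℤ)) = (b.val : ℤ) - (a.val : ℤ) := by ring
    rwa [this] at h4
  have h6 := a.isLt
  have h7 := b.isLt
  obtain ⟨c, hc⟩ := h5
  have h8 : c = 0 := by
    by_contra hne
    rcases lt_or_gt_of_ne hne with h | h
    · have : (t : ℤ) * c ≤ -(t : ℤ) := by nlinarith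
      omega
    · have : (t : ℤ) ≤ (t : ℤ) * c := by nlinarith
      omega
  rw [h8] at hc
  omega

/-- folding a pattern of net length divisible by `t` onto a closed directed `t`-walk -/
theorem PW_fold {β : Type} {R : β → β → Prop} {k t : ℕ} (ht0 : 0 < t) (d : Fin k → Bool)
    (hd : (t : ℤ) ∣ ∑ i, sgn (d i)) (c : Fin t → β) (hc : PW R (fun _ => true) c) (s : ℤ) :
    PW R d (fun i => c (rs t ht0 (ht d i.val + s))) := by
  have arc : ∀ z : ℤ, R (c (rs t ht0 z)) (c (rs t ht0 (z + 1))) := fun z =>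
    (hc _ _ (rs_succ t ht0 z)).1 rfl
  intro i j hij
  have hj : rs t ht0 (ht d j.val + s) = rs t ht0 (ht d (i.val + 1) + s) := by
    by_cases h : i.val + 1 < k
    · rw [Nat.mod_eq_of_lt h] at hij
      rw [hij]
    · have h1 : i.val + 1 = k := by
        have := i.isLt
        omega
      rw [h1, Nat.mod_self] at hij
      rw [hij, h1, ht_zero, ht_last]
      apply rs_congr
      have : (0 : ℤ) + s - (∑ i, sgn (d i) + s) = -(∑ i, sgn (d i)) := by ring
      rw [this]
      exact (dvd_neg).2 hd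
  have hs := ht_succ d i
  constructor
  · intro hdi
    have e : sgn (d i) = 1 := by rw [hdi]; rfl
    show R (c (rs t ht0 (ht d i.val + s))) (c (rs t ht0 (ht d j.val + s)))
    rw [hj, hs, e]
    have := arc (ht d i.val + s)
    have e2 : ht d i.val + 1 + s = ht d i.val + s + 1 := by ring
    rw [e2]
    exact this
  · intro hdi
    have e : sgn (d i) = -1 := by rw [hdi]; rfl
    show R (c (rs t ht0 (ht d j.val + s))) (c (rs t ht0 (ht d i.val + s)))
    rw [hj, hs, e]
    have := arc (ht d i.val + -1 + s)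
    have e2 : ht d i.val + -1 + s + 1 = ht d i.val + s := by ring
    rw [e2] at this
    exact this

/-- the fractional claim for net length divisible by `t` from the directed `t`-cycle -/
theorem FC_of_dir {t : ℕ} (ht0 : 0 < t) (hFC : FC t (fun _ => true)) {k : ℕ} (d : Fin k → Bool)
    (hd : (t : ℤ) ∣ ∑ i, sgn (d i)) : FC k d := by
  intro α _ _ R h1 h2 y hy
  obtain ⟨c, hc, hcy⟩ := hFC α R h1 h2 y hy
  have hsum : ∑ s : Fin t, ∑ i : Fin k, y (c (rs t ht0 (ht d i.val + (s.val : ℤ)))) = k * ∑ j, y (c j) := by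
    rw [Finset.sum_comm]
    have : ∀ i ∈ (univ : Finset (Fin k)), ∑ s : Fin t, y (c (rs t ht0 (ht d i.val + (s.val : ℤ)))) =
        ∑ j, y (c j) := fun i _ => sum_rs t ht0 (ht d i.val) (fun j => y (c j))
    rw [Finset.sum_congr rfl this, Finset.sum_const, nsmul_eq_mul, Finset.card_univ, Fintype.card_fin]
  have ht' : (0 : ℝ) < t := by exact_mod_cast ht0
  have : ∃ s : Fin t, ∑ i : Fin k, y (c (rs t ht0 (ht d i.val + (s.val : ℤ)))) ≤ k / t * ∑ j, y (c j) := by
    by_contra hcon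
    push Not at hcon
    haveI : Nonempty (Fin t) := ⟨⟨0, ht0⟩⟩
    have h3 := Finset.sum_lt_sum_of_nonempty (s := (univ : Finset (Fin t))) Finset.univ_nonempty
      (fun s _ => hcon s)
    rw [hsum, Finset.sum_const, nsmul_eq_mul, Finset.card_univ, Fintype.card_fin] at h3
    have h4 : (t : ℝ) * (k / t * ∑ j, y (c j)) = k * ∑ j, y (c j) := by field_simp
    linarith
  obtain ⟨s, hs⟩ := this
  refine ⟨_, PW_fold ht0 d hd c hc s.val, ?_⟩
  have hN : (0 : ℝ) ≤ (Fintype.card α : ℝ) := Nat.cast_nonneg _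
  calc (Fintype.card α : ℝ) * ∑ i : Fin k, y (c (rs t ht0 (ht d i.val + (s.val : ℤ))))
      ≤ (Fintype.card α : ℝ) * (k / t * ∑ j, y (c j)) := mul_le_mul_of_nonneg_left hs hN
    _ = k / t * ((Fintype.card α : ℝ) * ∑ j, y (c j)) := by ring
    _ ≤ k / t * (t * ∑ a, y a) := mul_le_mul_of_nonneg_left hcy (by positivity)
    _ = k * ∑ a, y a := by field_simp

/-- every pattern whose net length is divisible by 4 -/
theorem FC_net4 (hS : S1) {k : ℕ} (d : Fin k → Bool) (hd : (4 : ℤ) ∣ ∑ i, sgn (d i)) : FC k d :=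
  FC_of_dir (t := 4) (by norm_num) (FC4 hS) d hd

end Pool.Agent.W163.CF
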