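import Mathlib
import Pool.Agent.W163.CF.Net
import Pool.Agent.W163.CF.Defs2

/-!
# The fractional claim for directed `t`-cycles, `t ≥ 6` even (from `TL` and `ZT`)
-/

set_option autoImplicit false

namespace Pool.Agent.W163.CF

open Finset

/-- weighted walk: `n` steps from `x` to `y`; `s` is the weight of all vertices except the first -/
def WW {α : Type} (R : α → α → Prop) (w : α → ℝ) : ℕ → α → α → ℝ → Prop
  | 0, x, y, s => x = y ∧ s = 0
  | n + 1, x, y, s => ∃ z, R x z ∧ WW R w n z y (s - w z)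

theorem WW_append {α : Type} {R : α → α → Prop} {w : α → ℝ} : ∀ {n m : ℕ} {x y z : α} {s s' : ℝ},
    WW R w n x y s → WW R w m y z s' → WW R w (n + m) x z (s + s') := by
  intro n
  induction n with
  | zero =>
    intro m x y z s s' h h'
    obtain ⟨h1, h2⟩ := h
    subst h1
    rw [h2, Nat.zero_add, zero_add]
    exact h'
  | succ n ih =>
    intro m x y z s s' h h'
    obtain ⟨u, h1, h2⟩ := h
    have e : n + 1 + m = (n + m) + 1 := by ring
    rw [e]
    refine ⟨u, h1, ?_⟩
    have h3 := ih h2 h'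
    have e2 : s - w u + s' = s + s' - w u := by ring
    rw [e2] at h3
    exact h3

theorem WW_one {α : Type} {R : α → α → Prop} {w : α → ℝ} {x y : α} (h : R x y) : WW R w 1 x y (w y) :=
  ⟨y, h, rfl, by ring⟩

theorem WW_fun {α : Type} {R : α → α → Prop} {w : α → ℝ} : ∀ {n : ℕ} {x y : α} {s : ℝ}, WW R w n x y s →
    ∃ g : ℕ → α, g 0 = x ∧ g n = y ∧ (∀ i, i < n → R (g i) (g (i + 1))) ∧
      s = ∑ i ∈ range n, w (g (i + 1)) := by
  intro n
  induction n with
  | zero =>
    intro x y s h
    obtain ⟨h1, h2⟩ := h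
    exact ⟨fun _ => x, rfl, h1, fun i hi => absurd hi (Nat.not_lt_zero _), by simpa using h2⟩
  | succ n ih =>
    intro x y s h
    obtain ⟨z, h1, h2⟩ := h
    obtain ⟨g, g0, gn, gR, gs⟩ := ih h2
    refine ⟨fun i => match i with | 0 => x | i + 1 => g i, rfl, gn, ?_, ?_⟩
    · intro i hi
      cases i with
      | zero =>
        show R x (g 0)
        rw [g0]; exact h1
      | succ i =>
        show R (g i) (g (i + 1))
        exact gR i (by omega)
    · rw [Finset.sum_range_succ']
      show s = ∑ i ∈ range n, w (g (i + 1)) + w (g 0)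
      rw [← gs, g0]; ring

/-- closed weighted walks are patterns -/
theorem WW_closed {α : Type} {R : α → α → Prop} {w : α → ℝ} {t : ℕ} (ht0 : 0 < t) {x : α} {s : ℝ}
    (h : WW R w t x x s) : ∃ f : Fin t → α, PW R (fun _ => true) f ∧ ∑ i, w (f i) = s := by
  obtain ⟨g, g0, gn, gR, gs⟩ := WW_fun h
  refine ⟨fun i => g i.val, ?_, ?_⟩
  · intro i j hij
    refine ⟨fun _ => ?_, fun h => by simp at h⟩
    show R (g i.val) (g j.val)
    by_cases h1 : i.val + 1 < t
    · rw [Nat.mod_eq_of_lt h1] at hij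
      rw [hij]
      exact gR _ i.isLt
    · have h2 : i.val + 1 = t := by
        have := i.isLt
        omega
      rw [h2, Nat.mod_self] at hij
      rw [hij]
      have h3 := gR _ i.isLt
      rw [h2, gn, ← g0] at h3
      exact h3
  · rw [gs, Fin.sum_univ_eq_sum_range (fun i => w (g i)) t]
    have e1 := Finset.sum_range_succ (fun i => w (g i)) t
    have e2 := Finset.sum_range_succ' (fun i => w (g i)) t
    rw [gn] at e1
    rw [g0] at e2
    linarith

/-- walks in the zero set -/
theorem WW_of_Wk {α : Type} {R : α → α → Prop} {w : α → ℝ} : ∀ {n : ℕ} {x y : {v // w v = 0}},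
    Wk (fun a b : {v // w v = 0} => R a.1 b.1) n x y → WW R w n x.1 y.1 0 := by
  intro n
  induction n with
  | zero =>
    intro x y h
    have h1 : x = y := h
    exact ⟨congrArg _ h1, rfl⟩
  | succ n ih =>
    intro x y h
    obtain ⟨z, h1, h2⟩ := h
    refine ⟨z.1, h1, ?_⟩
    rw [z.2, sub_zero]
    exact ih h2

theorem Wk_snoc {V : Type} {D : V → V → Prop} : ∀ {n : ℕ} {x y z : V}, Wk D n x y → D y z →
    Wk D (n + 1) x z := by
  intro n
  induction n with
  | zero =>
    intro x y z h h'
    have h1 : x = y := h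
    subst h1
    exact ⟨z, h', rfl⟩
  | succ n ih =>
    intro x y z h h'
    obtain ⟨u, h1, h2⟩ := h
    exact ⟨u, h1, ih h2 h'⟩

/-- segments of a tile -/
theorem WW_seg {α : Type} {R : α → α → Prop} {w : α → ℝ} (F : ℤ → α) (hF : ∀ i, R (F i) (F (i + 1))) :
    ∀ (m : ℕ) (a : ℤ), WW R w m (F a) (F (a + m)) (∑ i ∈ range m, w (F (a + 1 + i))) := by
  intro m
  induction m with
  | zero =>
    intro a
    refine ⟨?_, ?_⟩
    · simp
    · simp
  | succ m ih =>
    intro a
    refine ⟨F (a + 1), hF a, ?_⟩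
    have h := ih (a + 1)
    have e1 : a + ((m + 1 : ℕ) : ℤ) = a + 1 + (m : ℤ) := by push_cast; ring
    rw [e1, Finset.sum_range_succ']
    have e2 : ∑ i ∈ range m, w (F (a + 1 + ((i + 1 : ℕ) : ℤ))) + w (F (a + 1 + ((0 : ℕ) : ℤ))) - w (F (a + 1)) =
        ∑ i ∈ range m, w (F (a + 1 + 1 + (i : ℤ))) := by
      have e3 : ∀ i ∈ range m, w (F (a + 1 + ((i + 1 : ℕ) : ℤ))) = w (F (a + 1 + 1 + (i : ℤ))) := by
        intro i _
        congr 2
        push_cast
        ring
      rw [Finset.sum_congr rfl e3]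
      simp
    rw [e2]
    exact h

/-- a segment of `m` positions, entered from `x` and left to `y` -/
theorem WW_through {α : Type} {R : α → α → Prop} {w : α → ℝ} (F : ℤ → α) (hF : ∀ i, R (F i) (F (i + 1)))
    {x y : α} (hy : w y = 0) (m : ℕ) (hm : 1 ≤ m) (a : ℤ) (h1 : R x (F a)) (h2 : R (F (a + m - 1)) y) :
    WW R w (m + 1) x y (∑ i ∈ range m, w (F (a + i))) := by
  obtain ⟨m, rfl⟩ : ∃ m', m = m' + 1 := ⟨m - 1, by omega⟩
  have e1 : a + ((m + 1 : ℕ) : ℤ) - 1 = a + (m : ℤ) := by push_cast; ring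
  rw [e1] at h2
  have k1 := WW_append (WW_append (WW_one (w := w) h1) (WW_seg (w := w) F hF m a)) (WW_one (w := w) h2)
  rw [hy] at k1
  have e2 : 1 + m + 1 = m + 1 + 1 := by ring
  rw [e2] at k1
  have e3 : w (F a) + ∑ i ∈ range m, w (F (a + 1 + (i : ℤ))) + 0 = ∑ i ∈ range (m + 1), w (F (a + (i : ℤ))) := by
    rw [Finset.sum_range_succ']
    have e4 : ∀ i ∈ range m, w (F (a + 1 + (i : ℤ))) = w (F (a + ((i + 1 : ℕ) : ℤ))) := by
      intro i _
      congr 2
      push_cast
      ring
    rw [Finset.sum_congr rfl e4]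
    simp
    ring
  rw [e3] at k1
  exact k1

/-- periodic extension of a tile -/
def per {α : Type} {t : ℕ} (ht0 : 0 < t) (f : Fin t → α) (i : ℤ) : α := f (rs t ht0 i)

theorem per_arc {α : Type} {t : ℕ} (ht0 : 0 < t) {R : α → α → Prop} {f : Fin t → α}
    (hf : PW R (fun _ => true) f) (i : ℤ) : R (per ht0 f i) (per ht0 f (i + 1)) :=
  (hf _ _ (rs_succ t ht0 i)).1 rfl

theorem per_add {α : Type} {t : ℕ} (ht0 : 0 < t) (f : Fin t → α) (i : ℤ) :
    per ht0 f (i + t) = per ht0 f i := by
  unfold per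
  rw [rs_congr t ht0 (i + t) i (by simp)]

theorem per_val {α : Type} {t : ℕ} (ht0 : 0 < t) (f : Fin t → α) (i : Fin t) :
    per ht0 f (i.val : ℤ) = f i := by
  unfold per
  congr 1
  apply Fin.ext
  have h := rs_val t ht0 (i.val : ℤ)
  have h2 : (i.val : ℤ) % (t : ℤ) = i.val := Int.emod_eq_of_lt (by omega) (by exact_mod_cast i.isLt)
  rw [h2] at h
  exact_mod_cast h

theorem sum_per {α : Type} {t : ℕ} (ht0 : 0 < t) (f : Fin t → α) (g : α → ℝ) :
    ∑ i ∈ range t, g (per ht0 f (i : ℤ)) = ∑ i, g (f i) := by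
  rw [← Fin.sum_univ_eq_sum_range (fun i => g (per ht0 f (i : ℤ))) t]
  apply Finset.sum_congr rfl
  intro i _
  rw [per_val]

/-- the fractional claim for the directed `t`-cycle, for optimal pairs -/
theorem Dir_opt (hTL : TL) (hZT : ZT) {t : ℕ} (ht6 : 6 ≤ t) (hte : Even t)
    {α : Type} [Fintype α] [DecidableEq α] [Nonempty α] (R : α → α → Prop)
    (hR : ∀ a, (Fintype.card α : ℝ) ≤ 2 * cnt (fun b => R a b))
    (hR' : ∀ a, (Fintype.card α : ℝ) ≤ 2 * cnt (fun b => R b a))
    (w : α → ℝ) (τ : (Fin t → α) → ℝ) (ho : Opt R (fun _ => true) w τ) :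
    (Fintype.card α : ℝ) ≤ t * ∑ f, τ f := by
  classical
  by_contra hcon
  push Not at hcon
  have ht0 : 0 < t := by omega
  have hc : ∀ x s, WW R w t x x s → 1 ≤ s := by
    intro x s h
    obtain ⟨f, hf, hs⟩ := WW_closed ht0 h
    rw [← hs]
    exact ho.cover f hf
  have hdeg : ∀ x y, (Fintype.card α : ℝ) ≤ cnt (fun v => R x v) + cnt (fun v => R v y) := by
    intro x y
    have h1 := hR x
    have h2 := hR' y
    linarith
  have wn := ho.w_nn
  have hNt : ∑ f, τ f * (t : ℝ) = t * ∑ f, τ f := by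
    rw [← Finset.sum_mul]; ring
  -- the zero set
  let D : {v // w v = 0} → {v // w v = 0} → Prop := fun a b => R a.1 b.1
  -- extension of walks
  have ext : ∀ (L : ℕ), L + 2 ≤ t → ∀ y x : {v // w v = 0}, Wk D L y x →
      0 < cnt (fun v => w v = 0 ∧ R x.1 v) + cnt (fun v => w v = 0 ∧ R v y.1) := by
    intro L hL y x hyx
    have hz := WW_of_Wk hyx
    have h1 := ho.deg_est (fun v => R x.1 v) (fun v => R v y.1) (hdeg x.1 y.1) (fun _ => t) (by
      intro f hf
      have hs := ho.tight2 f hf
      have hp := ho.supp f hf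
      have harc := per_arc ht0 hp
      have h2 := hTL t (L + 1) (fun i => w (per ht0 f i)) (fun i => R x.1 (per ht0 f i))
        (fun i => R (per ht0 f i) y.1) hte (by omega) (by omega) (fun i => wn _)
        (fun i => by simp only [per_add]) (fun i => by simp only [per_add])
        (fun i => by simp only [per_add]) (by rw [sum_per ht0 f w]; exact hs)
        (by
          intro a ha hb
          have e1 : a + (t : ℤ) - ((L + 1 : ℕ) : ℤ) - 1 = a + ((t - (L + 1) : ℕ) : ℤ) - 1 := by
            rw [Nat.cast_sub (by omega)]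
            ring
          rw [e1] at hb
          have k1 := WW_append (WW_through (per ht0 f) harc y.2 (t - (L + 1)) (by omega) a ha hb) hz
          have e2 : t - (L + 1) + 1 + L = t := by omega
          rw [e2, add_zero] at k1
          exact hc _ _ k1)
        (by
          intro a a' m m' hm hm' hmm ha hb ha' hb'
          have k1 := WW_append (WW_through (per ht0 f) harc y.2 m hm a ha hb) hz
          have k2 := WW_append (WW_through (per ht0 f) harc y.2 m' hm' a' ha' hb') hz
          have k3 := WW_append k1 k2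
          have e2 : m + 1 + L + (m' + 1 + L) = t := by omega
          rw [e2, add_zero, add_zero] at k3
          exact hc _ _ k3)
      have h3 := sum_per ht0 f (fun v => ind (w v ≠ 0) * (ind (R x.1 v) + ind (R v y.1)))
      rw [← h3]
      exact h2)
    rw [hNt] at h1
    linarith
  -- the zero set is nonempty
  have hZ : ∃ v, w v = 0 := by
    by_contra hne
    push Not at hne
    have h1 : ∑ v, (1 - load τ v) = 0 := Finset.sum_eq_zero fun v _ => by
      rw [ho.tight1 v (hne v)]; ring
    rw [slack_total] at h1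
    linarith
  -- long walks
  have hwalk : ∀ L : ℕ, L + 2 ≤ t → ∃ y x, Wk D L y x := by
    intro L
    induction L with
    | zero =>
      intro _
      obtain ⟨v, hv⟩ := hZ
      exact ⟨⟨v, hv⟩, ⟨v, hv⟩, rfl⟩
    | succ L ih =>
      intro hL
      obtain ⟨y, x, hyx⟩ := ih (by omega)
      have h1 := ext L (by omega) y x hyx
      by_cases h2 : ∃ v, w v = 0 ∧ R x.1 v
      · obtain ⟨v, hv, hr⟩ := h2
        exact ⟨y, ⟨v, hv⟩, Wk_snoc hyx hr⟩
      · have h3 : cnt (fun v => w v = 0 ∧ R x.1 v) = 0 := cnt_zero fun v hv => h2 ⟨v, hv⟩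
        rw [h3, zero_add] at h1
        obtain ⟨v, hv, hr⟩ := cnt_pos.1 h1
        exact ⟨⟨v, hv⟩, x, y, hr, hyx⟩
  -- degree bound for `t-2`-walks
  have hdom : ∀ y x : {v // w v = 0}, Wk D (t - 2) y x →
      cnt (fun v => w v = 0) - ∑ f, τ f * ind (nz w f = t - 1) ≤
        cnt (fun v => w v = 0 ∧ R x.1 v) + cnt (fun v => w v = 0 ∧ R v y.1) := by
    intro y x hyx
    have hz := WW_of_Wk hyx
    have h1 := ho.deg_est (fun v => R x.1 v) (fun v => R v y.1) (hdeg x.1 y.1)
      (fun f => t - nz w f + ind (nz w f = t - 1)) (by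
      intro f hf
      have hs := ho.tight2 f hf
      have key : ∀ i, R x.1 (f i) → R (f i) y.1 → w (f i) = 1 := by
        intro i h2 h3
        have k1 := WW_append (WW_append (WW_one (w := w) h2) (WW_one (w := w) h3)) hz
        have e1 : 1 + 1 + (t - 2) = t := by omega
        rw [e1, y.2, add_zero, add_zero] at k1
        have k2 := hc _ _ k1
        have k3 : w (f i) ≤ ∑ i, w (f i) := Finset.single_le_sum (fun j _ => wn (f j)) (mem_univ i)
        linarith
      by_cases hb : ∃ i, R x.1 (f i) ∧ R (f i) y.1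
      · obtain ⟨i, hi1, hi2⟩ := hb
        have hwi := key i hi1 hi2
        have hz0 : ∀ j, j ≠ i → w (f j) = 0 := by
          intro j hj
          have k3 : w (f j) + w (f i) ≤ ∑ i, w (f i) := by
            rw [← Finset.sum_pair hj (f := fun i => w (f i))]
            exact Finset.sum_le_sum_of_subset_of_nonneg (Finset.subset_univ _) (fun j _ _ => wn (f j))
          have := wn (f j)
          linarith
        have hnz : nz w f = t - 1 := by
          unfold nz
          rw [← Finset.add_sum_erase univ _ (mem_univ i), ind_f (p := w (f i) = 0) (by rw [hwi]; norm_num)]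
          rw [Finset.sum_congr rfl (fun j hj => ind_t (hz0 j (Finset.ne_of_mem_erase hj)))]
          rw [Finset.sum_const, Finset.card_erase_of_mem (mem_univ i), Finset.card_univ, Fintype.card_fin,
            nsmul_eq_mul, mul_one, Nat.cast_sub (by omega)]
          push_cast
          ring
        rw [ind_t hnz, hnz]
        rw [← Finset.add_sum_erase univ _ (mem_univ i)]
        have e0 : ∑ j ∈ univ.erase i, ind (w (f j) ≠ 0) * (ind (R x.1 (f j)) + ind (R (f j) y.1)) = 0 := by
          apply Finset.sum_eq_zero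
          intro j hj
          rw [ind_f (p := w (f j) ≠ 0) (fun h => h (hz0 j (Finset.ne_of_mem_erase hj))), zero_mul]
        rw [e0, add_zero, ind_t (p := w (f i) ≠ 0) (by rw [hwi]; norm_num), ind_t hi1, ind_t hi2]
        linarith
      · have e1 : ∑ i, ind (w (f i) ≠ 0) * (ind (R x.1 (f i)) + ind (R (f i) y.1)) ≤
            ∑ i : Fin t, (1 - ind (w (f i) = 0)) := by
          apply Finset.sum_le_sum
          intro i _
          have h4 : ind (R x.1 (f i)) + ind (R (f i) y.1) ≤ 1 := pair_le (fun h => hb ⟨i, h⟩)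
          by_cases h5 : w (f i) = 0
          · rw [ind_f (p := w (f i) ≠ 0) (fun h => h h5), ind_t h5]; norm_num
          · rw [ind_t (p := w (f i) ≠ 0) h5, ind_f h5]; linarith
        rw [Finset.sum_sub_distrib, Finset.sum_const, Finset.card_univ, Fintype.card_fin, nsmul_eq_mul,
          mul_one] at e1
        unfold nz
        have := ind_nn (∑ i, ind (w (f i) = 0) = (t : ℝ) - 1)
        linarith)
    have h2 := ho.cnt_zero_set
    have h3 : ∑ f, τ f * (t - nz w f + ind (nz w f = t - 1)) =
        t * ∑ f, τ f - ∑ f, τ f * nz w f + ∑ f, τ f * ind (nz w f = t - 1) := by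
      rw [← hNt, ← Finset.sum_sub_distrib, ← Finset.sum_add_distrib]
      apply Finset.sum_congr rfl
      intro f _
      ring
    linarith
  have hfin := hZT t ht6 hte {v // w v = 0} D (∑ f, τ f * ind (nz w f = t - 1))
    (by
      intro x hx
      have := hc _ _ (WW_of_Wk hx)
      linarith)
    (hwalk (t - 2) (by omega))
    (by
      intro y x hyx
      have h1 := hdom y x hyx
      rw [card_sub]
      have e1 := cnt_sub (fun v => w v = 0) (fun v => R x.1 v)
      have e2 := cnt_sub (fun v => w v = 0) (fun v => R v y.1)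
      rw [← e1, ← e2] at h1
      exact h1)
  rw [card_sub, ho.cnt_zero_set] at hfin
  have h5 : ((t : ℝ) - 1) * ∑ f, τ f * ind (nz w f = t - 1) ≤ ∑ f, τ f * nz w f := by
    rw [Finset.mul_sum]
    apply Finset.sum_le_sum
    intro f _
    by_cases h : nz w f = t - 1
    · rw [ind_t h, h]; linarith
    · rw [ind_f h, mul_zero, mul_zero]
      exact mul_nonneg (ho.t_nn f) (Finset.sum_nonneg fun i _ => ind_nn _)
  linarith

/-- **The fractional claim for the directed `t`-cycle**, `t ≥ 6` even. -/
theorem FC_dir (hTL : TL) (hZT : ZT) (hS : S1) {t : ℕ} (ht6 : 6 ≤ t) (hte : Even t) :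
    FC t (fun _ => true) :=
  FC_of hS (by omega) _ fun α _ _ _ R hR hR' w τ ho => Dir_opt hTL hZT ht6 hte R hR hR' w τ ho

/-- all patterns of even length whose net length is not `±2` -/
theorem FC_net_ne2 (hTL : TL) (hZT : ZT) (hS : S1) {k : ℕ} (d : Fin k → Bool)
    (h2 : (2 : ℤ) ∣ ∑ i, sgn (d i)) (h3 : ∑ i, sgn (d i) ≠ 2) (h4 : ∑ i, sgn (d i) ≠ -2) : FC k d := by
  by_cases h0 : ∑ i, sgn (d i) = 0
  · exact FC_net4 hS d (by rw [h0]; exact dvd_zero _)
  by_cases h5 : (∑ i, sgn (d i)).natAbs = 4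
  · exact FC_net4 hS d (by
      rw [← Int.dvd_natAbs, h5]
      norm_num)
  · have h6 : 6 ≤ (∑ i, sgn (d i)).natAbs := by omega
    have h7 : Even (∑ i, sgn (d i)).natAbs := by
      rw [Int.natAbs_even]
      exact (even_iff_two_dvd).2 h2
    exact FC_of_dir (t := (∑ i, sgn (d i)).natAbs) (by omega) (FC_dir hTL hZT hS h6 h7) d
      (by rw [Int.natAbs_dvd])

end Pool.Agent.W163.CF
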