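import Mathlib
import Pool.Agent.W163.CF.C4

/-!
# From the factor theorem to digraphs on `Fin n`
-/

set_option autoImplicit false

namespace Pool.Agent.W163.CF

open Finset

/-- the relation of a digraph without loops -/
def RG {n : ℕ} (G : Digraph (Fin n)) (v w : Fin n) : Prop := w ≠ v ∧ G.Adj v w

theorem Big_of {n : ℕ} (G : Digraph (Fin n)) (η : ℝ)
    (h : ∀ v : Fin n,
          ((1 / 2 + η) * (n : ℝ) ≤ (({w : Fin n | w ≠ v ∧ G.Adj v w}.ncard : ℕ) : ℝ)) ∧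
          ((1 / 2 + η) * (n : ℝ) ≤ (({w : Fin n | w ≠ v ∧ G.Adj w v}.ncard : ℕ) : ℝ))) :
    Big (RG G) η := by
  refine ⟨fun v h' => h'.1 rfl, fun v => ?_, fun v => ?_⟩
  · rw [Fintype.card_fin]
    exact (h v).1
  · rw [Fintype.card_fin]
    have h2 : {w | RG G w v} = {w : Fin n | w ≠ v ∧ G.Adj w v} := by
      ext w
      unfold RG
      simp only [Set.mem_setOf_eq]
      constructor
      · rintro ⟨a, b⟩; exact ⟨a.symm, b⟩
      · rintro ⟨a, b⟩; exact ⟨a.symm, b⟩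
    rw [h2]
    exact (h v).2

theorem C4_factor (h11 : S11) (hS : S1) : ∀ η : ℝ, η > 0 → ∃ n₀ : ℕ, ∀ n : ℕ, n₀ ≤ n → 4 ∣ n →
      ∀ G : Digraph (Fin n),
        (∀ v : Fin n,
          ((1 / 2 + η) * (n : ℝ) ≤ (({w : Fin n | w ≠ v ∧ G.Adj v w}.ncard : ℕ) : ℝ)) ∧
          ((1 / 2 + η) * (n : ℝ) ≤ (({w : Fin n | w ≠ v ∧ G.Adj w v}.ncard : ℕ) : ℝ))) →
        ∃ f : Fin (n / 4) × Fin 4 → Fin n, Function.Bijective f ∧
          ∀ i : Fin (n / 4), ∀ j : Fin 4, G.Adj (f (i, j)) (f (i, j + 1)) := by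
  intro η hη
  obtain ⟨n0, hn0⟩ := h11 4 (fun _ => true) le_rfl (FC4 hS) η hη
  refine ⟨n0, fun n hn h4 G hG => ?_⟩
  obtain ⟨e, he⟩ := hn0 n hn h4 (RG G) (Big_of G η hG)
  refine ⟨fun p => e p, e.bijective, fun i j => ?_⟩
  have h1 := (he i j (j + 1) (by
    fin_cases j <;> rfl)).1 rfl
  exact h1.2

end Pool.Agent.W163.CF
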